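import Pool.Agent.H171R2.Tri.Core

namespace Pool.Agent.H171R2.Tri

open Finset

lemma shiftOut_le (V : Set Pt) (p : ℤ → Pt) (d : ℤ → ZMod 6) (ty : Bool) (k : ℤ) :
    shiftOut V p d ty k ≤ 1 := by
  unfold shiftOut
  split_ifs <;> simp

lemma shiftIn_le (V : Set Pt) (p : ℤ → Pt) (d : ℤ → ZMod 6) (ty : Bool) (k : ℤ) :
    shiftIn V p d ty k ≤ 1 := by
  unfold shiftIn
  split_ifs <;> simp

lemma PayOK.le_three {V : Set Pt} {p : ℤ → Pt} {d : ℤ → ZMod 6} {lp : Bool} {typ lab : ℤ → Bool}
    {pay : ℤ → ℤ} {k : ℤ} (h : PayOK V p d lp typ lab pay k) : pay (k + 1) ≤ 3 := by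
  rcases h with h | ⟨ty, -, -, -, -, h⟩
  · omega
  · rcases h with h | h | h
    · exact h.1
    · exact h.1
    · have h1 := shiftOut_le V p d ty k
      have h2 := shiftIn_le V p d ty k
      have := h.1
      omega

/-- `Stmt_T5` for triangle-free sets -/
def Stmt_T5tf : Prop :=
  ∀ (V : Set Pt) (L : ℕ) (p : ℤ → Pt) (d : ℤ → ZMod 6) (lp : Bool) (np : ℤ → Bool),
    TriFree V → IsPoly V L p d → Minority L d lp → (∀ k, np (k + L) = np k) →
    (∀ k, d (k + 1) = d k → np (k + 1) = true) →
    (∀ k, d (k + 1) ≠ d k → par (d k) = lp → d (k - 1) ≠ d k → d (k + 2) = d (k + 1) →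
      np (k + 1) = true) →
    (∀ k, d (k + 1) ≠ d k → par (d k) ≠ lp → d (k - 1) = d k → d (k + 2) ≠ d (k + 1) →
      np (k + 1) = true) →
    (∀ k, np k = false → np (k + 1) = false → d (k + 1) - d k = d k - d (k - 1)) →
    ((range L).filter (fun k : ℕ => np (k : ℤ) = true)).card ≤ 8 →
    ∃ a : ℤ, par (d a) ≠ lp ∧ ∃ W ∈ words, W.length = L ∧
      ∀ j : ℕ, j < L → W.getD j 0 = tc d (a + j)

theorem pt (h5 : Stmt_T5tf) (h6 : Stmt_T6) : Stmt_PT := by
  intro V L p d lp typ lab pay hV hP hmin htyp hlab hpay hconst hok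
  by_cases hN : ((range L).filter (fun k : ℕ => decide (pay (k : ℤ) ≤ 0) = true)).card ≤ 8
  · apply h6 V L p d lp typ lab pay hV hP htyp hlab hpay hconst hok
    refine h5 V L p d lp (fun k => decide (pay k ≤ 0)) hV hP hmin ?_ ?_ ?_ ?_ ?_ hN
    · intro k; simp only [hpay]
    · intro k hk
      rcases hok k with h | ⟨ty, h1, -⟩
      · simpa using h
      · exfalso
        rw [hk] at h1
        cases ty
        · simp only [Bool.false_eq_true, if_false] at h1
          revert h1; generalize d k = x; revert x; decide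
        · simp only [if_true] at h1
          revert h1; generalize d k = x; revert x; decide
    · intro k h1 h2 h3 h4
      rcases hok k with h | ⟨ty, g1, g2, g3, g4, g5⟩
      · simpa using h
      · exfalso
        have hpar : par (d (k + 1)) ≠ lp := by
          rw [← h2, g1]
          cases ty
          · simp only [Bool.false_eq_true, if_false]
            generalize d k = x; revert x; decide
          · simp only [if_true]
            generalize d k = x; revert x; decide
        rcases g5 with ⟨_, g | g⟩ | g | g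
        · exact h3 g.2
        · exact hpar g.1
        · exact g.2.2.1 h4
        · exact g.2.2.1 h4
    · intro k h1 h2 h3 h4
      rcases hok k with h | ⟨ty, g1, g2, g3, g4, g5⟩
      · simpa using h
      · exfalso
        rcases g5 with ⟨_, g | g⟩ | g | g
        · exact h2 g.1
        · exact h4 g.2
        · exact g.2.1 h3
        · exact g.2.1 h3
    · intro k h1 h2
      have e1 := hok (k - 1)
      have e2 := hok k
      unfold PayOK at e1 e2
      simp only [sub_add_cancel] at e1
      simp only [decide_eq_false_iff_not, not_le] at h1 h2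
      rcases e1 with e1 | ⟨ty, a1, a2, a3, a4, a5⟩
      · omega
      rcases e2 with e2 | ⟨ty', b1, b2, b3, b4, b5⟩
      · omega
      have : ty = ty' := by rw [← a4, ← b3]
      subst this
      cases ty
      · simp only [Bool.false_eq_true, if_false] at a1 b1
        rw [b1, a1]; ring
      · simp only [if_true] at a1 b1
        rw [b1, a1]; ring
  · push Not at hN
    have h3 : ∀ k : ℤ, pay k ≤ 3 := by
      intro k
      have := (hok (k - 1)).le_three
      simpa using this
    have : ∑ k ∈ range L, pay k ≤
        ∑ k ∈ range L, (3 - if decide (pay (k : ℤ) ≤ 0) = true then (3 : ℤ) else 0) := by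
      apply Finset.sum_le_sum
      intro k _
      have := h3 k
      by_cases h : pay (k : ℤ) ≤ 0 <;> simp [h] <;> omega
    rw [Finset.sum_sub_distrib, ← Finset.sum_filter] at this
    simp only [sum_const, card_range, nsmul_eq_mul] at this
    have h9 : (9 : ℤ) ≤ ((range L).filter (fun k : ℕ => decide (pay (k : ℤ) ≤ 0) = true)).card := by
      exact_mod_cast hN
    linarith

end Pool.Agent.H171R2.Tri
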