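import Pool.Agent.H171R2.Tri.Pay
import Pool.Agent.H171R2.Tri.PT

namespace Pool.Agent.H171R2.Tri

open Finset

variable {V : Finset Pt} {w : Pt → ℕ} {K : ℕ} {P : Packing V w K} {i : Fin K}
  {p : ℤ → Pt} {d : ℤ → ZMod 6}

lemma Packing.lowE_of_mem (P : Packing V w K) (lp : Fin K → Bool) {j : Fin K} {v : Pt}
    {k : ZMod 6} (h : P.mem j v k = true) : par k = lp j ↔ P.lowE lp j v k = true := by
  unfold Packing.lowE
  rw [h]
  generalize par k = a
  generalize lp j = b
  revert a b
  decide

lemma bool_pay (f0 f1 f2 l0 l1 l2 : Bool) (t0 t1 T : ℤ)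
    (hT : T = if (if f0 = true then l0 else l1) = true then 3
      else if (if f1 = true then l1 else l2) = true ∨ (if f2 = true then l2 else l0) = true then 0
      else if f0 = f1 ∧ f1 = f2 then 1 + t0 - t1
      else if f1 = true ∧ f2 = false then 3 else 0)
    (hpos : ¬ T ≤ 0) (h3 : T ≤ 3) :
    (T ≤ 3 ∧ ((f0 = true ∧ l0 = true) ∨ ((!f0) = true ∧ l1 = true))) ∨
    (T ≤ 3 ∧ ¬ l0 = true ∧ ¬ l1 = true ∧ (decide (f0 = !f2) = true ↔ f0 = true) ∧
      (decide ((!f0) = f1) = true ↔ (!f0) = true)) ∨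
    (T ≤ 1 + t0 + -t1 ∧ ¬ l0 = true ∧ ¬ l1 = true ∧ decide (f0 = !f2) = false ∧
      decide ((!f0) = f1) = false) := by
  cases f0 <;> cases f1 <;> cases f2 <;> cases l0 <;> cases l1 <;> cases l2 <;>
    simp only [if_true, Bool.false_eq_true, if_false, or_self, or_true, true_or, false_or, or_false,
      and_self, and_false, false_and, true_and, and_true, reduceCtorEq, Bool.not_true,
      Bool.not_false, decide_true, decide_false, not_true, not_false_iff, iff_true, iff_false,
      iff_self] at hT ⊢ <;> omega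

theorem Orb.payOK (O : Orb P i p d) (h1 : Stmt_D1) (h2 : Stmt_D2) (h3 : Stmt_D3) (h5 : Stmt_D5)
    (hV : TriFree (V : Set Pt)) (lp : Fin K → Bool) (k : ℤ) :
    PayOK (V : Set Pt) p d (lp i) (fun k => P.typE i (p k) (d k))
      (fun k => P.labE lp i (p k) (d k)) (fun k => P.payV lp i (p k)) k := by
  unfold PayOK
  by_cases hpos : P.payV lp i (p (k + 1)) ≤ 0
  · left; exact hpos
  right
  have hne : P.payV lp i (p (k + 1)) ≠ 0 := fun h => hpos (le_of_eq h)
  obtain ⟨g1, g2, g3, g4, g5⟩ := h5 V w K P lp hV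
  obtain ⟨A, j1, j2, hl⟩ := g5 i _ hne
  have hpay := g3 i _ A j1 j2 hl
  have hle := g4 i (p (k + 1))
  have hfacts := P.level_facts h2 h3 hV hl
  obtain ⟨hD, hi, hj1, hj2, -, -⟩ := hl
  have hlong_out := O.long_out hV k
  have hlong_in := O.long_in hV k
  have hdirs := O.dirs h3 hV k hD hi
  have fi := P.lowE_cls lp hi
  have fj2 := P.lowE_cls lp hj2
  rw [z42] at fj2
  have hm1 := O.m1 k
  have hm1' := O.m1 (k + 1)
  have lowk := P.lowE_of_mem lp hm1
  have lowk' := P.lowE_of_mem lp hm1'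
  have hXi : i ∈ P.X (p k) (d k) := by
    simp only [Packing.X, mem_filter, mem_univ, true_and]
    rw [O.m1, O.m2]; simp
  have hback := P.lowE_back lp hXi
  rw [← O.step k] at hback
  rw [← hback] at lowk
  have htb := P.typE_back h2 i (p k) (d k)
  rw [← O.step k] at htb
  obtain ⟨x1, x2, x3, x4, r1, r2, r3, r4, r5, r6, r7, r8⟩ := hfacts
  obtain ⟨_, k1, k2, k3⟩ := hD
  have hlb : ∀ j, j ∈ P.X (p (k + 1)) (d k + 3) → i ∈ P.X (p (k + 1)) (d k + 3) →
      P.rkR j (p (k + 1)) (d k + 3) + P.rkR i (p (k + 1)) (d k + 3) =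
        (P.X (p (k + 1)) (d k + 3)).card + 1 →
      P.labE lp i (p k) (d k) = decide (P.lowE lp i (p (k + 1)) (d k + 3) =
        P.lowE lp j (p (k + 1)) (d k + 3)) := by
    intro j a b c
    have := P.labE_back h1 h2 lp (u := p k) (k := d k) (i := i) (j := j)
    rw [← O.step k] at this
    exact this b a c
  have e22 : A + 2 + 2 = A + 4 := by ring
  have hT := hpay
  unfold Packing.payT Packing.lowLong at hT
  rw [z42, e22] at hT
  have hB := bool_pay _ _ _ _ _ _ _ _ _ hT hpos hle
  cases hA : P.mem i (p (k + 1)) A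
  · -- right turn
    obtain ⟨q1, q2⟩ := hdirs.2 hA
    have q3 : d (k + 1) = d k - 1 := by
      rw [q1]
      have : ∀ x a : ZMod 6, x + 3 = a → a + 2 = x - 1 := by decide
      exact this _ _ q2
    have q4 : d k + 1 = A + 4 := by
      have : ∀ x a : ZMod 6, x + 3 = a → x + 1 = a + 4 := by decide
      exact this _ _ q2
    have L1 : P.labE lp i (p k) (d k) = decide (P.lowE lp i (p (k + 1)) A =
        P.lowE lp j2 (p (k + 1)) A) := by
      have := hlb j2 (by rw [q2]; exact x2) (by rw [q2]; exact x1) (by rw [q2]; exact r6)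
      rwa [q2] at this
    have L2 : P.labE lp i (p (k + 1)) (d (k + 1)) = decide (P.lowE lp i (p (k + 1)) (A + 2) =
        P.lowE lp j1 (p (k + 1)) (A + 2)) := by
      rw [q1]; exact P.labE_eq h1 h2 lp x4 r7
    rw [q2] at lowk hlong_in
    have lowk2 : par (d (k + 1)) = lp i ↔ P.lowE lp i (p (k + 1)) (A + 2) = true := by
      rw [lowk', q1]
    have hlo : longDir V (p (k + 1)) (A + 2) = true ↔ d (k + 2) = d (k + 1) := by
      rw [← hlong_out, q1]
    have S1 := O.shift_in hV false k
    have S2 := O.shift_out hV false k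
    rw [q2] at S1
    rw [q1] at S2
    simp only [Bool.false_eq_true, if_false] at S1 S2
    refine ⟨false, by simpa using q3, ?_, ?_, ?_, ?_⟩
    · simp only [Bool.false_eq_true, if_false]; rw [q4]; exact k3
    · show P.typE i (p k) (d k) = false
      rw [htb, q2, decide_eq_false_iff_not]; omega
    · show P.typE i (p (k + 1)) (d (k + 1)) = false
      rw [q1]; unfold Packing.typE; rw [decide_eq_false_iff_not]; omega
    · beta_reduce
      simp only [ne_eq]
      rw [L1, L2, S1, S2, fi, fj2, lowk2, lowk, fi, ← hlo, ← hlong_in]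
      exact hB
  · -- left turn
    obtain ⟨q1, q2⟩ := hdirs.1 hA
    have q3 : d (k + 1) = d k + 1 := by
      rw [q1]
      have : ∀ x a : ZMod 6, x + 3 = a + 2 → a = x + 1 := by decide
      exact this _ _ q2
    have q4 : d k - 1 = A + 4 := by
      have : ∀ x a : ZMod 6, x + 3 = a + 2 → x - 1 = a + 4 := by decide
      exact this _ _ q2
    have L1 : P.labE lp i (p k) (d k) = decide (P.lowE lp i (p (k + 1)) (A + 2) =
        P.lowE lp j1 (p (k + 1)) (A + 2)) := by
      have := hlb j1 (by rw [q2]; exact x4) (by rw [q2]; exact x3) (by rw [q2]; exact r8)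
      rwa [q2] at this
    have L2 : P.labE lp i (p (k + 1)) (d (k + 1)) = decide (P.lowE lp i (p (k + 1)) A =
        P.lowE lp j2 (p (k + 1)) A) := by
      rw [q1]; exact P.labE_eq h1 h2 lp x2 r5
    rw [q2] at lowk hlong_in
    have lowk2 : par (d (k + 1)) = lp i ↔ P.lowE lp i (p (k + 1)) A = true := by
      rw [lowk', q1]
    have hlo : longDir V (p (k + 1)) A = true ↔ d (k + 2) = d (k + 1) := by
      rw [← hlong_out, q1]
    have S1 := O.shift_in hV true k
    have S2 := O.shift_out hV true k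
    rw [q2] at S1
    rw [q1] at S2
    simp only [if_true] at S1 S2
    refine ⟨true, by simpa using q3, ?_, ?_, ?_, ?_⟩
    · simp only [if_true]; rw [q4]; exact k3
    · show P.typE i (p k) (d k) = true
      rw [htb, q2, decide_eq_true_iff]; omega
    · show P.typE i (p (k + 1)) (d (k + 1)) = true
      rw [q1]; unfold Packing.typE; rw [decide_eq_true_iff]; omega
    · beta_reduce
      simp only [ne_eq]
      rw [L1, L2, S1, S2, fi, fj2, lowk2, lowk, fi, ← hlo, ← hlong_in]
      rcases hB with ⟨h, h'⟩ | ⟨h, h', h'', h3, h4⟩ | ⟨h, h', h'', h3, h4⟩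
      · exact Or.inl ⟨h, h'.symm⟩
      · exact Or.inr (Or.inl ⟨h, h'', h', h4, h3⟩)
      · exact Or.inr (Or.inr ⟨by linarith, h'', h', h4, h3⟩)

end Pool.Agent.H171R2.Tri
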