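import Mathlib

/-!
# Triangle-free subsets of the triangular lattice: core definitions and task statements
Points are `(x,y) : ℤ × ℤ`; `(x,y)` is adjacent to `(x,y) + e k`, `k : ZMod 6`.
-/

namespace Pool.Agent.H171R2.Tri

open Finset

abbrev Pt := ℤ × ℤ

/-- The six lattice directions, in counterclockwise order. -/
def e (k : ZMod 6) : Pt :=
  (![(1, 0), (0, 1), (-1, 1), (-1, 0), (0, -1), (1, -1)] : Fin 6 → Pt) k

/-- parity of a direction -/
def par (k : ZMod 6) : Bool := (ZMod.val k) % 2 == 1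

/-- no lattice triangle inside `V` -/
def TriFree (V : Set Pt) : Prop :=
  ∀ v ∈ V, ∀ k : ZMod 6, v + e k ∈ V → v + e (k + 1) ∉ V

/-! ## Task T1: laminar packing of T-cuts (abstract finite multigraph) -/

/-- finite multigraph with node set `N` and edge set `E` -/
structure MG (N E : Type*) where
  l : E → N
  r : E → N

variable {N E : Type*}

/-- degree parity of the edge set `J` at `x` -/
def MG.bd [DecidableEq N] (G : MG N E) (J : Finset E) (x : N) : ZMod 2 :=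
  ∑ f ∈ J, ((if G.l f = x then 1 else 0) + (if G.r f = x then 1 else 0))

/-- `f` is in the cut of `U` -/
def MG.Crosses (G : MG N E) (U : Finset N) (f : E) : Prop :=
  ¬ (G.l f ∈ U ↔ G.r f ∈ U)

open Classical in
def Stmt_T1 : Prop :=
  ∀ (N E : Type) (_ : Fintype N) (_ : DecidableEq N) (_ : Fintype E) (_ : DecidableEq E)
    (G : MG N E) (c : E → ℕ) (T : N → ZMod 2),
    (∀ S : N → ZMod 2, ∑ x, S x = 0 → ∃ J : Finset E, ∀ x, G.bd J x = S x) →
    ∑ x, T x = 0 → (∀ f, Even (c f)) →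
    ∃ (K : ℕ) (U : Fin K → Finset N),
      (∀ i, ∑ x ∈ U i, T x = 1) ∧
      (∀ f, (univ.filter (fun i => G.Crosses (U i) f)).card ≤ c f) ∧
      (∀ i j, i < j → U i ⊆ U j ∨ Disjoint (U i) (U j)) ∧
      ∃ J : Finset E, (∀ x, G.bd J x = T x) ∧ ∑ f ∈ J, c f ≤ K

/-! ## Task T2: the packing for a weighted point set -/

/-- A laminar packing of `K` odd cuts.  `mem i v k` says whether the triangle with corners
`v, v + e k, v + e (k+1)` belongs to the `i`-th set. -/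
structure Packing (V : Finset Pt) (w : Pt → ℕ) (K : ℕ) where
  mem : Fin K → Pt → ZMod 6 → Bool
  compat : ∀ i v k, mem i (v + e k) (k + 2) = mem i v k
  nonedge : ∀ i, ∀ v ∈ V, ∀ k, v + e k ∉ V → mem i v k = mem i v (k - 1)
  load : ∀ v ∈ V, ∀ k, v + e k ∈ V →
    (univ.filter (fun i => mem i v k ≠ mem i v (k - 1))).card ≤ w v
  laminar : ∀ i j, i < j → (∀ v k, mem i v k = true → mem j v k = true) ∨
    (∀ v k, mem i v k = true → mem j v k = false)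
  odd : ∀ i, Odd ((V ×ˢ (univ : Finset (ZMod 6))).filter
    (fun b => mem i b.1 b.2 = true ∧ mem i b.1 (b.2 - 1) = false)).card

def Stmt_T2 : Prop :=
  ∀ (V : Finset Pt) (w : Pt → ℕ), (∀ v, Even (w v)) →
    ∃ K, Nonempty (Packing V w K) ∧ ∃ S ⊆ V, ∃ σ : Pt → Bool,
      (∀ u ∈ V \ S, ∀ k, u + e k ∈ V \ S → σ u ≠ σ (u + e k)) ∧ ∑ v ∈ S, w v ≤ K

/-- The discharging theorem (helper171). -/
def Stmt_DC : Prop :=
  ∀ (V : Finset Pt) (w : Pt → ℕ) (K : ℕ), TriFree (V : Set Pt) → Packing V w K →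
    9 * K ≤ ∑ v ∈ V, w v

/-! ## Tasks T5, T6: the polygon theorem -/

/-- closed walk `p` with directions `d`, period `L` (odd), simple, turning by at most 60 degrees,
inside `V` -/
structure IsPoly (V : Set Pt) (L : ℕ) (p : ℤ → Pt) (d : ℤ → ZMod 6) : Prop where
  odd : Odd L
  step : ∀ k, p (k + 1) = p k + e (d k)
  per : ∀ k, p (k + L) = p k
  perd : ∀ k, d (k + L) = d k
  inj : ∀ j k, p j = p k → (L : ℤ) ∣ j - k
  turn : ∀ k, d (k + 1) = d k ∨ d (k + 1) = d k + 1 ∨ d (k + 1) = d k - 1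
  mem : ∀ k, p k ∈ V

/-- `lp` is the minority parity of the directions -/
def Minority (L : ℕ) (d : ℤ → ZMod 6) (lp : Bool) : Prop :=
  ((range L).filter (fun k : ℕ => par (d (k : ℤ)) = lp)).card <
    ((range L).filter (fun k : ℕ => par (d (k : ℤ)) ≠ lp)).card

/-- shift of a `t`-corner caused by the neighbouring corner `p (k+2)` (after edge `k+1`), for a corner
at `p (k+1)` of turn type `ty` (`true` = left):  the neighbouring corner is a turning point whose third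
neighbour is not in `V` and the following edge is a short side. -/
noncomputable def shiftOut (V : Set Pt) (p : ℤ → Pt) (d : ℤ → ZMod 6) (ty : Bool) (k : ℤ) : ℤ :=
  open Classical in
  if d (k + 2) = d (k + 1) + 1 ∧ p (k + 2) + e (d (k + 1) - 1) ∉ V ∧ d (k + 3) ≠ d (k + 2) then
    (if ty then 1 else -1)
  else if d (k + 2) = d (k + 1) - 1 ∧ p (k + 2) + e (d (k + 1) + 1) ∉ V ∧ d (k + 3) ≠ d (k + 2) then
    (if ty then -1 else 1)
  else 0

/-- the same for the neighbouring corner `p k` (before edge `k`), for a corner at `p (k+1)`. -/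
noncomputable def shiftIn (V : Set Pt) (p : ℤ → Pt) (d : ℤ → ZMod 6) (ty : Bool) (k : ℤ) : ℤ :=
  open Classical in
  if d k = d (k - 1) + 1 ∧ p k + e (d (k - 1) - 1) ∉ V ∧ d (k - 2) ≠ d (k - 1) then
    (if ty then 1 else -1)
  else if d k = d (k - 1) - 1 ∧ p k + e (d (k - 1) + 1) ∉ V ∧ d (k - 2) ≠ d (k - 1) then
    (if ty then -1 else 1)
  else 0

/-- conditions on the payment at the corner `p (k+1)` between the edges `k` and `k+1`,
`ty = true` for a left turn. Edge `j` is low iff `par (d j) = lp`. `lab = true` means equal roles. -/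
def PayOK (V : Set Pt) (p : ℤ → Pt) (d : ℤ → ZMod 6) (lp : Bool) (typ lab : ℤ → Bool)
    (pay : ℤ → ℤ) (k : ℤ) : Prop :=
  pay (k + 1) ≤ 0 ∨
  ∃ ty : Bool,
    (d (k + 1) = if ty then d k + 1 else d k - 1) ∧
    (p (k + 1) + e (if ty then d k - 1 else d k + 1) ∈ V) ∧
    typ k = ty ∧ typ (k + 1) = ty ∧
    ( -- L : the low side is long
      (pay (k + 1) ≤ 3 ∧ ((par (d k) = lp ∧ d (k - 1) = d k) ∨
        (par (d (k + 1)) = lp ∧ d (k + 2) = d (k + 1)))) ∨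
      -- D : both sides short, label `true` on the low side and `false` on the high side
      (pay (k + 1) ≤ 3 ∧ d (k - 1) ≠ d k ∧ d (k + 2) ≠ d (k + 1) ∧
        (lab k = true ↔ par (d k) = lp) ∧ (lab (k + 1) = true ↔ par (d (k + 1)) = lp)) ∨
      -- t : both sides short, both labels `false`
      (pay (k + 1) ≤ 1 + shiftIn V p d ty k + shiftOut V p d ty k ∧
        d (k - 1) ≠ d k ∧ d (k + 2) ≠ d (k + 1) ∧ lab k = false ∧ lab (k + 1) = false))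

/-- The polygon theorem. -/
def Stmt_PT : Prop :=
  ∀ (V : Set Pt) (L : ℕ) (p : ℤ → Pt) (d : ℤ → ZMod 6) (lp : Bool) (typ lab : ℤ → Bool)
    (pay : ℤ → ℤ),
    TriFree V → IsPoly V L p d → Minority L d lp →
    (∀ k, typ (k + L) = typ k) → (∀ k, lab (k + L) = lab k) → (∀ k, pay (k + L) = pay k) →
    (∀ k, (d (k + 1) = d k ∨
        (d (k + 1) = d k + 1 ∧ p (k + 1) + e (d k - 1) ∉ V) ∨
        (d (k + 1) = d k - 1 ∧ p (k + 1) + e (d k + 1) ∉ V)) →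
      typ (k + 1) = typ k ∧ lab (k + 1) = lab k) →
    (∀ k, PayOK V p d lp typ lab pay k) →
    ∑ k ∈ range L, pay k ≤ 3 * ((L : ℤ) - 9)

/-! ## Task T4: boundary orbits -/

namespace Packing

variable {V : Finset Pt} {w : Pt → ℕ} {K : ℕ}

/-- directed boundary edges of the `i`-th set, with the set on the left -/
def B (P : Packing V w K) (i : Fin K) : Finset (Pt × ZMod 6) :=
  (V ×ˢ (univ : Finset (ZMod 6))).filter
    (fun b => P.mem i b.1 b.2 = true ∧ P.mem i b.1 (b.2 - 1) = false)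

/-- the next directed boundary edge -/
def next (P : Packing V w K) (i : Fin K) (b : Pt × ZMod 6) : Pt × ZMod 6 :=
  if P.mem i (b.1 + e b.2) (b.2 + 1) = true ∧ P.mem i (b.1 + e b.2) b.2 = false then
    (b.1 + e b.2, b.2 + 1)
  else if P.mem i (b.1 + e b.2) b.2 = true ∧ P.mem i (b.1 + e b.2) (b.2 - 1) = false then
    (b.1 + e b.2, b.2)
  else (b.1 + e b.2, b.2 - 1)

end Packing

def Stmt_T4 : Prop :=
  ∀ (V : Finset Pt) (w : Pt → ℕ) (K : ℕ) (P : Packing V w K) (i : Fin K), TriFree (V : Set Pt) →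
    (∀ b ∈ P.B i, P.next i b ∈ P.B i) ∧
    (∀ b ∈ P.B i, ∀ b' ∈ P.B i, b.1 = b'.1 → b = b') ∧
    ∃ (lp : Bool) (L : ℕ) (s : ℤ → Pt × ZMod 6),
      (∀ k, s k ∈ P.B i) ∧ (∀ k, s (k + 1) = P.next i (s k)) ∧
      IsPoly (V : Set Pt) L (fun k => (s k).1) (fun k => (s k).2) ∧
      Minority L (fun k => (s k).2) lp ∧
      (∀ f : Pt → ℤ, (∀ v, f v ≤ 3) → ∑ k ∈ range L, f (s k).1 ≤ 3 * ((L : ℤ) - 9) →
        ∑ b ∈ P.B i, f b.1 ≤ 3 * (((P.B i).card : ℤ) - 9))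

/-! ## Tasks T5, T6 -/

/-- turn code at the vertex `p k` (between the edges `k-1` and `k`): 0 straight, 1 left, 2 right -/
def tc (d : ℤ → ZMod 6) (k : ℤ) : ℕ :=
  if d k = d (k - 1) then 0 else if d k = d (k - 1) + 1 then 1 else 2

/-- the 32 words -/
def words : List (List ℕ) :=
  [[0,0,0,1,1,1,1,2,2,1,1,1,1], [0,0,0,1,1,1,1,2,2,1,1,2,1,1,1,1,2],
   [0,0,0,1,1,1,1,2,2,2,1,1,1,1,2,1,1], [0,0,0,1,1,1,2,1,1,2,1,1,1],
   [0,0,0,1,1,1,2,1,1,2,1,2,1,1,1,1,2], [0,0,0,1,1,1,2,1,2,1,1,1,2,1,1],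
   [0,0,0,1,1,2,1,1,1,1,2,2,2,1,1,1,1], [0,0,0,1,1,2,1,1,1,2,1,2,1,1,1],
   [0,0,0,1,2,2,2,2,1,2,1,2,2,1,2,2,2], [0,0,0,1,2,2,2,2,1,2,2,1,1,2,2,2,2],
   [0,0,0,2,1,1,1,1,2,1,1,2,2,1,1,1,1], [0,0,0,2,1,1,1,1,2,1,2,1,1,2,1,1,1],
   [0,0,0,2,2,1,2,2,2,1,2,1,2,2,2], [0,0,0,2,2,1,2,2,2,2,1,1,1,2,2,2,2],
   [0,0,0,2,2,2,1,2,1,2,2,2,1,2,2], [0,0,0,2,2,2,1,2,2,1,2,1,2,2,2,2,1],
   [0,0,0,2,2,2,1,2,2,1,2,2,2], [0,0,0,2,2,2,2,1,1,1,2,2,2,2,1,2,2],
   [0,0,0,2,2,2,2,1,1,2,2,1,2,2,2,2,1], [0,0,0,2,2,2,2,1,1,2,2,2,2], [0,0,1,1,0,1,1,2,1,1,1],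
   [0,0,1,1,1,2,0,1,1,1,2,1,1], [0,0,1,1,1,2,1,1,0,1,1], [0,0,1,1,1,2,1,1,0,2,1,1,1,1,2],
   [0,0,1,1,2,1,1,1,0,2,1,1,1], [0,0,1,2,2,2,2,1,0,2,2,1,2,2,2], [0,0,2,1,1,1,1,2,0,1,1,2,1,1,1],
   [0,0,2,2,0,2,2,1,2,2,2], [0,0,2,2,1,2,2,2,0,1,2,2,2], [0,0,2,2,2,1,0,2,2,2,1,2,2],
   [0,0,2,2,2,1,2,2,0,1,2,2,2,2,1], [0,0,2,2,2,1,2,2,0,2,2]]

/-- T5: polygons with at most 8 non-paying vertices.  `np k` says that `p k` is non-paying. -/
def Stmt_T5 : Prop :=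
  ∀ (V : Set Pt) (L : ℕ) (p : ℤ → Pt) (d : ℤ → ZMod 6) (lp : Bool) (np : ℤ → Bool),
    IsPoly V L p d → Minority L d lp → (∀ k, np (k + L) = np k) →
    -- straight vertices are non-paying
    (∀ k, d (k + 1) = d k → np (k + 1) = true) →
    -- corners with short low side and long high side are non-paying
    (∀ k, d (k + 1) ≠ d k → par (d k) = lp → d (k - 1) ≠ d k → d (k + 2) = d (k + 1) →
      np (k + 1) = true) →
    (∀ k, d (k + 1) ≠ d k → par (d k) ≠ lp → d (k - 1) = d k → d (k + 2) ≠ d (k + 1) →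
      np (k + 1) = true) →
    -- adjacent paying vertices turn the same way
    (∀ k, np k = false → np (k + 1) = false → d (k + 1) - d k = d k - d (k - 1)) →
    ((range L).filter (fun k : ℕ => np (k : ℤ) = true)).card ≤ 8 →
    ∃ a : ℤ, par (d a) ≠ lp ∧ ∃ W ∈ words, W.length = L ∧
      ∀ j : ℕ, j < L → W.getD j 0 = tc d (a + j)

/-- T6: the payment bound for each word. -/
def Stmt_T6 : Prop :=
  ∀ (V : Set Pt) (L : ℕ) (p : ℤ → Pt) (d : ℤ → ZMod 6) (lp : Bool) (typ lab : ℤ → Bool)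
    (pay : ℤ → ℤ),
    TriFree V → IsPoly V L p d →
    (∀ k, typ (k + L) = typ k) → (∀ k, lab (k + L) = lab k) → (∀ k, pay (k + L) = pay k) →
    (∀ k, (d (k + 1) = d k ∨
        (d (k + 1) = d k + 1 ∧ p (k + 1) + e (d k - 1) ∉ V) ∨
        (d (k + 1) = d k - 1 ∧ p (k + 1) + e (d k + 1) ∉ V)) →
      typ (k + 1) = typ k ∧ lab (k + 1) = lab k) →
    (∀ k, PayOK V p d lp typ lab pay k) →
    (∃ a : ℤ, par (d a) ≠ lp ∧ ∃ W ∈ words, W.length = L ∧
      ∀ j : ℕ, j < L → W.getD j 0 = tc d (a + j)) →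
    ∑ k ∈ range L, pay k ≤ 3 * ((L : ℤ) - 9)

/-! ## Task T7: consequences -/

/-- weighted bipartisation: the combination of T2 and the discharging theorem -/
def Stmt_OCT : Prop :=
  ∀ (V : Finset Pt) (w : Pt → ℕ), TriFree (V : Set Pt) →
    ∃ S ⊆ V, ∃ σ : Pt → Bool,
      (∀ u ∈ V \ S, ∀ k, u + e k ∈ V \ S → σ u ≠ σ (u + e k)) ∧
      9 * ∑ v ∈ S, w v ≤ ∑ v ∈ V, w v

/-- stable sets -/
def Stable (S : Finset Pt) : Prop := ∀ u ∈ S, ∀ k : ZMod 6, u + e k ∉ S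

/-- fractional chromatic number at most 9/4 -/
def Stmt_Frac : Prop :=
  ∀ V : Finset Pt, TriFree (V : Set Pt) →
    ∃ y : Finset Pt → ℝ, (∀ S, 0 ≤ y S) ∧ (∀ S, y S ≠ 0 → S ⊆ V ∧ Stable S) ∧
      (∀ v ∈ V, 1 ≤ ∑ S ∈ V.powerset, if v ∈ S then y S else 0) ∧
      ∑ S ∈ V.powerset, y S ≤ 9 / 4

end Pool.Agent.H171R2.Tri
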