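import Pool.Agent.H171R2.Tri.Core

/-!
# The discharging: definitions and local statements (D1 - D5)
-/

namespace Pool.Agent.H171R2.Tri

open Finset

/-- `v` has the three `V`-neighbours in the directions `A, A+2, A+4` -/
def D3 (V : Finset Pt) (v : Pt) (A : ZMod 6) : Prop :=
  v ∈ V ∧ v + e A ∈ V ∧ v + e (A + 2) ∈ V ∧ v + e (A + 4) ∈ V

instance (V : Finset Pt) (v : Pt) (A : ZMod 6) : Decidable (D3 V v A) := by
  unfold D3; infer_instance

/-- the side of `v` in the direction `κ` is long -/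
def longDir (V : Finset Pt) (v : Pt) (κ : ZMod 6) : Bool :=
  decide (v + e κ ∈ V ∧ v + e κ + e κ ∈ V)

/-- the shift caused by the neighbour in direction `κ` -/
def shiftDir (V : Finset Pt) (v : Pt) (κ : ZMod 6) : ℤ :=
  if v + e κ + e (κ + 1) ∈ V ∧ v + e κ + e (κ - 1) ∉ V ∧
      v + e κ + e (κ + 1) + e (κ + 1) ∉ V then 1
  else if v + e κ + e (κ - 1) ∈ V ∧ v + e κ + e (κ + 1) ∉ V ∧
      v + e κ + e (κ - 1) + e (κ - 1) ∉ V then -1
  else 0

namespace Packing

variable {V : Finset Pt} {w : Pt → ℕ} {K : ℕ}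

/-- position of the `j`-th cut in the order seen from the triangle `t(v,k)` -/
def key (P : Packing V w K) (j : Fin K) (v : Pt) (k : ZMod 6) : ℕ :=
  if P.mem j v k = true then (j : ℕ) else 2 * K - j

/-- the cuts crossing the edge `(v, v + e k)` -/
def X (P : Packing V w K) (v : Pt) (k : ZMod 6) : Finset (Fin K) :=
  univ.filter (fun j => P.mem j v k ≠ P.mem j v (k - 1))

/-- rank (from 1) of the cut `j` on the edge `(v,k)` seen from the left -/
def rk (P : Packing V w K) (j : Fin K) (v : Pt) (k : ZMod 6) : ℕ :=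
  ((P.X v k).filter (fun j' => P.key j' v k ≤ P.key j v k)).card

/-- rank (from 1) of the cut `j` on the edge `(v,k)` seen from the right -/
def rkR (P : Packing V w K) (j : Fin K) (v : Pt) (k : ZMod 6) : ℕ :=
  ((P.X v k).filter (fun j' => P.key j' v (k - 1) ≤ P.key j v (k - 1))).card

/-- the cuts separating the sector `A` from the two other sectors `A+2`, `A+4` -/
def cls (P : Packing V w K) (v : Pt) (A : ZMod 6) : Finset (Fin K) :=
  univ.filter (fun j => P.mem j v A ≠ P.mem j v (A + 2) ∧ P.mem j v (A + 2) = P.mem j v (A + 4))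

/-- rank (from 1) in the class `A` -/
def crk (P : Packing V w K) (j : Fin K) (v : Pt) (A : ZMod 6) : ℕ :=
  ((P.cls v A).filter (fun j' => P.key j' v A ≤ P.key j v A)).card

/-- number of complete levels -/
def ell (P : Packing V w K) (v : Pt) (A : ZMod 6) : ℕ :=
  min (P.cls v A).card (min (P.cls v (A + 2)).card (P.cls v (A + 4)).card)

/-- number of cuts through the vertex `v` -/
def nv (P : Packing V w K) (v : Pt) : ℕ :=
  (univ.filter (fun j => ∃ k, P.mem j v k ≠ P.mem j v (k - 1))).card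

/-- the edge `(v,k)` is low for the cut `j` (`lp j` = the low parity of `j`) -/
def lowE (P : Packing V w K) (lp : Fin K → Bool) (j : Fin K) (v : Pt) (k : ZMod 6) : Bool :=
  ((par k == lp j) == P.mem j v k)

/-- the low side at `v` of a cut of class `A` is long -/
def lowLong (P : Packing V w K) (lp : Fin K → Bool) (j : Fin K) (v : Pt) (A : ZMod 6) : Bool :=
  if P.lowE lp j v A = true then longDir V v A else longDir V v (A + 2)

/-- payment to `j` (class `A`) from the triple `(j, j1, j2)` of classes `A, A+2, A+4` -/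
def payT (P : Packing V w K) (lp : Fin K → Bool) (j j1 j2 : Fin K) (v : Pt) (A : ZMod 6) : ℤ :=
  if P.lowLong lp j v A = true then 3
  else if P.lowLong lp j1 v (A + 2) = true ∨ P.lowLong lp j2 v (A + 4) = true then 0
  else if P.lowE lp j v A = P.lowE lp j1 v (A + 2) ∧
      P.lowE lp j1 v (A + 2) = P.lowE lp j2 v (A + 4) then
    1 + shiftDir V v A - shiftDir V v (A + 2)
  else if P.lowE lp j1 v (A + 2) = true ∧ P.lowE lp j2 v (A + 4) = false then 3
  else 0

/-- `(j, j1, j2)` is a level of the vertex `v` (classes `A, A+2, A+4`) -/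
def Lev (P : Packing V w K) (v : Pt) (A : ZMod 6) (j j1 j2 : Fin K) : Prop :=
  D3 V v A ∧ j ∈ P.cls v A ∧ j1 ∈ P.cls v (A + 2) ∧ j2 ∈ P.cls v (A + 4) ∧
    P.crk j v A = P.crk j1 v (A + 2) ∧ P.crk j v A = P.crk j2 v (A + 4)

instance (P : Packing V w K) (v : Pt) (A : ZMod 6) (j j1 j2 : Fin K) :
    Decidable (P.Lev v A j j1 j2) := by unfold Lev; infer_instance

/-- total payment of the vertex `v` to the cut `i` -/
def payV (P : Packing V w K) (lp : Fin K → Bool) (i : Fin K) (v : Pt) : ℤ :=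
  ∑ A : ZMod 6, ∑ j1 : Fin K, ∑ j2 : Fin K,
    if P.Lev v A i j1 j2 then P.payT lp i j1 j2 v A else 0

end Packing

/-! ## The tasks -/

/-- D1: general ranks -/
def Stmt_D1 : Prop :=
  ∀ (α : Type) (_ : DecidableEq α) (S : Finset α) (f : α → ℕ),
    (∀ x ∈ S, ∀ y ∈ S, f x = f y → x = y) →
    (∀ x ∈ S, 1 ≤ (S.filter (fun y => f y ≤ f x)).card ∧
      (S.filter (fun y => f y ≤ f x)).card ≤ S.card) ∧
    (∀ x ∈ S, ∀ y ∈ S, (S.filter (fun z => f z ≤ f x)).card =
      (S.filter (fun z => f z ≤ f y)).card → x = y) ∧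
    (∀ s, 1 ≤ s → s ≤ S.card → ∃ x ∈ S, (S.filter (fun z => f z ≤ f x)).card = s)

/-- D2: order of the cuts on an edge -/
def Stmt_D2 : Prop :=
  ∀ (V : Finset Pt) (w : Pt → ℕ) (K : ℕ) (P : Packing V w K),
    -- keys are injective
    (∀ v k j j', P.key j v k = P.key j' v k → j = j') ∧
    -- reversal
    (∀ v k, ∀ j ∈ P.X v k, P.rk j v k + P.rkR j v k = (P.X v k).card + 1) ∧
    -- the other end of an edge
    (∀ v k, P.X (v + e k) (k + 3) = P.X v k) ∧
    (∀ v k j, P.rk j (v + e k) (k + 3) = P.rkR j v k) ∧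
    (∀ v k j, P.rkR j (v + e k) (k + 3) = P.rk j v k)

/-- D3: local structure at a vertex of degree 3 -/
def Stmt_D3 : Prop :=
  ∀ (V : Finset Pt) (w : Pt → ℕ) (K : ℕ) (P : Packing V w K), TriFree (V : Set Pt) →
    ∀ v A, D3 V v A →
    (∀ j, P.mem j v (A + 1) = P.mem j v A ∧ P.mem j v (A + 3) = P.mem j v (A + 2) ∧
      P.mem j v (A + 5) = P.mem j v (A + 4)) ∧
    (P.X v A = P.cls v A ∪ P.cls v (A + 4)) ∧ Disjoint (P.cls v A) (P.cls v (A + 4)) ∧
    (∀ j ∈ P.cls v A, ∀ j' ∈ P.cls v (A + 2), P.key j v A < P.key j' v A) ∧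
    (∀ j ∈ P.cls v A, ∀ j' ∈ P.cls v (A + 4), P.key j v A < P.key j' v A) ∧
    (∀ j ∈ P.cls v A, P.rk j v A = P.crk j v A) ∧
    (∀ j ∈ P.cls v (A + 4), P.rkR j v A = P.crk j v (A + 4))

/-- D4 (I1): number of boundary edges -/
def Stmt_D4 : Prop :=
  ∀ (V : Finset Pt) (w : Pt → ℕ) (K : ℕ) (P : Packing V w K), TriFree (V : Set Pt) →
    (∑ i, (P.B i).card = ∑ v ∈ V, P.nv v) ∧
    (∀ v ∈ V, (∀ A, ¬ D3 V v A) → P.nv v ≤ w v) ∧
    (∀ v A, D3 V v A → P.nv v ≤ w v + P.ell v A)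

/-- D5 (I3): the payments of a vertex -/
def Stmt_D5 : Prop :=
  ∀ (V : Finset Pt) (w : Pt → ℕ) (K : ℕ) (P : Packing V w K) (lp : Fin K → Bool),
    TriFree (V : Set Pt) →
    (∀ v A, D3 V v A → 3 * (P.ell v A : ℤ) ≤ ∑ i, P.payV lp i v) ∧
    (∀ v, (∀ A, ¬ D3 V v A) → ∀ i, P.payV lp i v = 0) ∧
    (∀ i v A j1 j2, P.Lev v A i j1 j2 → P.payV lp i v = P.payT lp i j1 j2 v A) ∧
    (∀ i v, P.payV lp i v ≤ 3) ∧
    (∀ i v, P.payV lp i v ≠ 0 → ∃ A j1 j2, P.Lev v A i j1 j2)

end Pool.Agent.H171R2.Tri
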