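import Pool.Agent.H171R2.Tri.Asm

namespace Pool.Agent.H171R2.Tri

open Finset

theorem dc (hT4 : Stmt_T4) (h1 : Stmt_D1) (h2 : Stmt_D2) (h3 : Stmt_D3) (h4 : Stmt_D4)
    (h5 : Stmt_D5) (hpt : Stmt_PT) : Stmt_DC := by
  intro V w K hV P
  have hT := fun i => hT4 V w K P i hV
  choose hnext huniq lp L s hs hsn hpoly hmin hfin using hT
  obtain ⟨g1, g2, g3, g4, g5⟩ := h5 V w K P lp hV
  obtain ⟨q1, q2, q3⟩ := h4 V w K P hV
  -- I2
  have I2 : ∀ i, ∑ b ∈ P.B i, P.payV lp i b.1 ≤ 3 * (((P.B i).card : ℤ) - 9) := by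
    intro i
    have hO : Orb P i (fun k => (s i k).1) (fun k => (s i k).2) :=
      { step := (hpoly i).step
        turn := (hpoly i).turn
        mem := fun k => (hpoly i).mem k
        m1 := fun k => (P.mem_B.1 (hs i k)).2.1
        m2 := fun k => (P.mem_B.1 (hs i k)).2.2 }
    refine hfin i (P.payV lp i) (g4 i) ?_
    have hp := (hpoly i).per
    have hd := (hpoly i).perd
    refine hpt (V : Set Pt) (L i) (fun k => (s i k).1) (fun k => (s i k).2) (lp i)
      (fun k => P.typE i (s i k).1 (s i k).2) (fun k => P.labE lp i (s i k).1 (s i k).2)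
      (fun k => P.payV lp i (s i k).1) hV (hpoly i) (hmin i) ?_ ?_ ?_ ?_ ?_
    · intro k
      have a := hp k
      have b := hd k
      beta_reduce at a b ⊢
      rw [a, b]
    · intro k
      have a := hp k
      have b := hd k
      beta_reduce at a b ⊢
      rw [a, b]
    · intro k
      have a := hp k
      beta_reduce at a ⊢
      rw [a]
    · intro k h
      exact ⟨hO.typ_const hV k h, hO.lab_const hV lp k h⟩
    · intro k
      exact hO.payOK h1 h2 h3 h5 hV lp k
  -- sum over B i = sum over V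
  have I4 : ∀ i, ∑ b ∈ P.B i, P.payV lp i b.1 = ∑ v ∈ V, P.payV lp i v := by
    intro i
    have hinj : Set.InjOn (fun b : Pt × ZMod 6 => b.1) (P.B i) := by
      intro b hb b' hb' h
      exact huniq i b hb b' hb' h
    rw [← Finset.sum_image (f := fun v => P.payV lp i v) hinj]
    apply Finset.sum_subset
    · intro v hv
      obtain ⟨b, hb, rfl⟩ := Finset.mem_image.1 hv
      exact (P.mem_B.1 hb).1
    · intro v hv hv'
      by_contra hne
      obtain ⟨A, j1, j2, hl⟩ := g5 i v hne
      obtain ⟨hD, hi, -⟩ := hl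
      obtain ⟨hm, -⟩ := h3 V w K P hV v A hD
      obtain ⟨b1, b2, b3⟩ := hm i
      simp only [Packing.cls, mem_filter, mem_univ, true_and] at hi
      apply hv'
      cases hA : P.mem i v A
      · have hx : P.mem i v (A + 2) = true := by
          cases h : P.mem i v (A + 2)
          · exact absurd (hA.trans h.symm) hi.1
          · rfl
        refine Finset.mem_image.2 ⟨(v, A + 2), P.mem_B.2 ⟨hv, hx, ?_⟩, rfl⟩
        have : A + 2 - 1 = A + 1 := by ring
        show P.mem i v (A + 2 - 1) = false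
        rw [this, b1, hA]
      · have hx : P.mem i v (A + 2) = false := by
          cases h : P.mem i v (A + 2)
          · rfl
          · exact absurd (hA.trans h.symm) hi.1
        refine Finset.mem_image.2 ⟨(v, A), P.mem_B.2 ⟨hv, hA, ?_⟩, rfl⟩
        show P.mem i v (A - 1) = false
        rw [zm1, b3, ← hi.2, hx]
  -- vertex inequality
  have I1 : ∀ v ∈ V, 3 * (P.nv v : ℤ) - ∑ i, P.payV lp i v ≤ 3 * (w v : ℤ) := by
    intro v hv
    by_cases hD : ∃ A, D3 V v A
    · obtain ⟨A, hA⟩ := hD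
      have a := q3 v A hA
      have b := g1 v A hA
      have a' : (P.nv v : ℤ) ≤ w v + P.ell v A := by exact_mod_cast a
      linarith
    · push Not at hD
      have a := q2 v hv hD
      have b := g2 v hD
      have a' : (P.nv v : ℤ) ≤ w v := by exact_mod_cast a
      rw [Finset.sum_eq_zero (fun i _ => b i)]
      linarith
  have S1 : ∑ v ∈ V, (3 * (P.nv v : ℤ) - ∑ i, P.payV lp i v) ≤ ∑ v ∈ V, 3 * (w v : ℤ) :=
    Finset.sum_le_sum I1
  rw [Finset.sum_sub_distrib, ← Finset.mul_sum, ← Finset.mul_sum, Finset.sum_comm] at S1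
  have S2 : ∑ i, ∑ v ∈ V, P.payV lp i v ≤ ∑ i, 3 * (((P.B i).card : ℤ) - 9) :=
    Finset.sum_le_sum (fun i _ => by rw [← I4]; exact I2 i)
  rw [← Finset.mul_sum, Finset.sum_sub_distrib] at S2
  simp only [sum_const, card_univ, Fintype.card_fin, nsmul_eq_mul] at S2
  have q1' : ∑ i, ((P.B i).card : ℤ) = ∑ v ∈ V, (P.nv v : ℤ) := by exact_mod_cast q1
  rw [q1'] at S2
  have : (9 * (K : ℤ)) ≤ ∑ v ∈ V, (w v : ℤ) := by linarith
  exact_mod_cast this

end Pool.Agent.H171R2.Tri
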