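import Pool.Agent.H896R2.Tri.T7F

/-!
# Imperfection ratio of triangle-free hexagonal graphs
-/

namespace Pool.Agent.H171R2.Tri

open Finset MeasureTheory

/-- LP duality for fractional multicolourings -/
theorem frac_of_weights (V : Finset Pt) (t : Pt → ℝ) (Λ : ℝ) (hΛ : 0 < Λ)
    (ht : ∀ v ∈ V, 0 ≤ t v)
    (hw : ∀ z : Pt → ℝ, (∀ v ∈ V, 0 ≤ z v) → ∃ S ⊆ V, Stable S ∧
      ∑ v ∈ V, z v * t v ≤ Λ * ∑ v ∈ S, z v) :
    ∃ y : Finset Pt → ℝ, (∀ S, 0 ≤ y S) ∧ (∀ S, y S ≠ 0 → S ⊆ V ∧ Stable S) ∧
      (∀ v ∈ V, t v ≤ ∑ S ∈ V.powerset, if v ∈ S then y S else 0) ∧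
      ∑ S ∈ V.powerset, y S ≤ Λ := by
  classical
  set F := (V.powerset.filter (fun S => Stable S)) with hF
  have hFm : ∀ S, S ∈ F ↔ S ⊆ V ∧ Stable S := by
    intro S; rw [hF, Finset.mem_filter, Finset.mem_powerset]
  set T : Finset (↥V → ℝ) := F.image (ind V) with hT
  set t' : ↥V → ℝ := fun v => t v / Λ with ht'
  set D : Set (↥V → ℝ) := {x | ∀ v, t' v ≤ x v} with hD
  have hDc : IsClosed D := by
    have : D = ⋂ v, {x | t' v ≤ x v} := by ext; simp [hD]
    rw [this]
    exact isClosed_iInter (fun v => isClosed_le continuous_const (continuous_apply v))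
  have hDconv : Convex ℝ D := by
    intro x hx y hy a b ha hb hab v
    simp only [Pi.add_apply, Pi.smul_apply, smul_eq_mul]
    have h1 := hx v
    have h2 := hy v
    have : t' v = a * t' v + b * t' v := by rw [← add_mul, hab, one_mul]
    rw [this]
    exact add_le_add (mul_le_mul_of_nonneg_left h1 ha) (mul_le_mul_of_nonneg_left h2 hb)
  have hmeet : ¬ Disjoint (convexHull ℝ (T : Set (↥V → ℝ))) D := by
    intro hdis
    have hcomp : IsCompact (convexHull ℝ (T : Set (↥V → ℝ))) :=
      Set.Finite.isCompact_convexHull ℝ T.finite_toSet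
    obtain ⟨f, u, v, hu, huv, hv⟩ := geometric_hahn_banach_compact_closed
      (convex_convexHull ℝ (T : Set (↥V → ℝ))) hcomp hDconv hDc hdis
    set c : ↥V → ℝ := fun a => f (Pi.single a 1) with hc
    have hf : ∀ x : ↥V → ℝ, f x = ∑ a, x a * c a := by
      intro x
      conv_lhs => rw [← Finset.univ_sum_single x]
      rw [map_sum]
      apply Finset.sum_congr rfl
      intro a _
      have : (Pi.single a (x a) : ↥V → ℝ) = x a • Pi.single a (1 : ℝ) := by
        rw [← Pi.single_smul]; simp
      rw [this, map_smul, smul_eq_mul]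
    have hcpos : ∀ a, 0 ≤ c a := by
      intro a
      by_contra hneg
      push Not at hneg
      set s : ℝ := (|f t'| + |v| + 1) / (-c a) with hs
      have hspos : 0 ≤ s := by
        apply div_nonneg
        · positivity
        · linarith
      have hmem : (t' + s • Pi.single a (1 : ℝ) : ↥V → ℝ) ∈ D := by
        intro b
        simp only [Pi.add_apply, Pi.smul_apply, smul_eq_mul]
        have : 0 ≤ (Pi.single a (1 : ℝ) : ↥V → ℝ) b := by
          by_cases hba : b = a
          · subst hba; simp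
          · simp [Pi.single_apply, hba]
        nlinarith
      have := hv _ hmem
      rw [map_add, map_smul, smul_eq_mul] at this
      have h1 : s * c a = -(|f t'| + |v| + 1) := by
        rw [hs, div_mul_eq_mul_div, div_eq_iff (by linarith : -c a ≠ 0)]
        ring
      have h2 : s * f (Pi.single a (1 : ℝ)) = -(|f t'| + |v| + 1) := h1
      rw [h2] at this
      have h3 := le_abs_self (f t')
      have h4 := neg_abs_le v
      linarith
    set z : Pt → ℝ := fun p => if hp : p ∈ V then c ⟨p, hp⟩ else 0 with hz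
    have hzpos : ∀ p ∈ V, 0 ≤ z p := by
      intro p hp
      simp only [hz, hp, dif_pos]
      exact hcpos _
    have hsumV : ∀ S ⊆ V, ∑ p ∈ S, z p = f (ind V S) := by
      intro S hS
      rw [hf]
      have : ∑ a : ↥V, ind V S a * c a = ∑ a : ↥V, (fun p => if p ∈ S then z p else 0) (a : Pt) := by
        apply Finset.sum_congr rfl
        intro a _
        simp only [ind, hz, a.2, dif_pos]
        split_ifs <;> simp
      rw [this, Finset.sum_coe_sort V (fun p => if p ∈ S then z p else 0),
        ← Finset.sum_filter]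
      apply Finset.sum_congr _ (fun _ _ => rfl)
      ext p
      simp only [Finset.mem_filter]
      exact ⟨fun hp => ⟨hS hp, hp⟩, fun hp => hp.2⟩
    obtain ⟨S, hS, hst, hle⟩ := hw z hzpos
    have h1 : f (ind V S) < u := by
      apply hu
      apply subset_convexHull
      rw [hT, Finset.coe_image]
      exact ⟨S, by exact_mod_cast (hFm S).2 ⟨hS, hst⟩, rfl⟩
    have h2 : v < f t' := hv _ (fun _ => le_refl _)
    have h3 : Λ * f t' = ∑ p ∈ V, z p * t p := by
      rw [hf, Finset.mul_sum, ← Finset.sum_coe_sort V (fun p => z p * t p)]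
      apply Finset.sum_congr rfl
      intro a _
      simp only [ht', hz, a.2, dif_pos]
      field_simp
    rw [← hsumV S hS] at h1
    rw [← h3] at hle
    have := le_of_mul_le_mul_left hle hΛ
    linarith
  rw [Set.not_disjoint_iff] at hmeet
  obtain ⟨x, hx, hxD⟩ := hmeet
  rw [Finset.mem_convexHull'] at hx
  obtain ⟨w, hw0, hw1, hwx⟩ := hx
  have hinj : Set.InjOn (ind V) (F : Set (Finset Pt)) := by
    intro S hS T' hT' hST
    rw [Finset.mem_coe, hFm] at hS hT'
    exact ind_inj V hS.1 hT'.1 hST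
  rw [hT, Finset.sum_image hinj] at hw1
  rw [hT, Finset.sum_image hinj] at hwx
  have hw0' : ∀ S ∈ F, 0 ≤ w (ind V S) := fun S hS =>
    hw0 _ (by rw [hT]; exact Finset.mem_image_of_mem _ hS)
  refine ⟨fun S => if S ∈ F then Λ * w (ind V S) else 0, ?_, ?_, ?_, ?_⟩
  · intro S
    dsimp only
    split_ifs with hS
    · exact mul_nonneg hΛ.le (hw0' S hS)
    · exact le_refl _
  · intro S hS
    dsimp only at hS
    by_contra hc
    rw [← hFm] at hc
    exact hS (if_neg hc)
  · intro v hv
    have h1 := congrFun hwx ⟨v, hv⟩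
    have h2 := hxD ⟨v, hv⟩
    rw [Finset.sum_apply] at h1
    have h3 : ∑ S ∈ V.powerset, (if v ∈ S then (if S ∈ F then Λ * w (ind V S) else 0) else 0)
        = Λ * ∑ S ∈ F, (w (ind V S) • ind V S) ⟨v, hv⟩ := by
      rw [hF, Finset.sum_filter, Finset.mul_sum]
      apply Finset.sum_congr rfl
      intro S hS
      have hSF : S ∈ Finset.filter (fun S => Stable S) V.powerset ↔ Stable S := by
        rw [Finset.mem_filter]
        exact ⟨fun h => h.2, fun h => ⟨hS, h⟩⟩
      simp only [hSF, Pi.smul_apply, ind, smul_eq_mul]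
      split_ifs <;> simp
    rw [h3, h1]
    have h4 : t v / Λ ≤ x ⟨v, hv⟩ := h2
    rw [div_le_iff₀ hΛ] at h4
    linarith
  · have h3 : ∑ S ∈ V.powerset, (if S ∈ F then Λ * w (ind V S) else 0)
        = Λ * ∑ S ∈ F, w (ind V S) := by
      rw [hF, Finset.sum_filter, Finset.mul_sum]
      apply Finset.sum_congr rfl
      intro S hS
      have hSF : S ∈ Finset.filter (fun S => Stable S) V.powerset ↔ Stable S := by
        rw [Finset.mem_filter]
        exact ⟨fun h => h.2, fun h => ⟨hS, h⟩⟩
      simp only [hSF]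
      split_ifs <;> simp
    rw [h3, hw1, mul_one]

lemma int_le (a b : ℝ) (ha : 0 ≤ a) (hb : 0 ≤ b) :
    ∫ θ in (0 : ℝ)..b, (if θ ≤ a then (1 : ℝ) else 0) = min a b := by
  rw [intervalIntegral.integral_of_le hb]
  have : (fun θ : ℝ => if θ ≤ a then (1 : ℝ) else 0) = (Set.Iic a).indicator (fun _ => 1) := by
    ext θ; simp [Set.indicator]
  rw [this, setIntegral_indicator measurableSet_Iic]
  rw [Set.Ioc_inter_Iic]
  simp only [integral_const, MeasurableSet.univ, measureReal_restrict_apply, Set.univ_inter,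
    smul_eq_mul, mul_one]
  rw [Measure.real, Real.volume_Ioc, ENNReal.toReal_ofReal (by simp [ha, hb])]
  rw [sub_zero, min_comm]

lemma int_gt (a b : ℝ) (ha : 0 ≤ a) (hb : 0 ≤ b) :
    ∫ θ in (0 : ℝ)..b, (if a < θ then (1 : ℝ) else 0) = b - min a b := by
  have h := int_le a b ha hb
  have : (fun θ : ℝ => if a < θ then (1 : ℝ) else 0) =
      fun θ => 1 - (if θ ≤ a then (1 : ℝ) else 0) := by
    ext θ
    by_cases h : θ ≤ a
    · simp [h, not_lt.2 h]
    · simp [h, not_le.1 h]
  rw [this, intervalIntegral.integral_sub, h]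
  · simp
  · exact intervalIntegrable_const
  · have : (fun θ : ℝ => if θ ≤ a then (1 : ℝ) else 0) = (Set.Iic a).indicator (fun _ => 1) := by
      ext θ; simp [Set.indicator]
    rw [this, intervalIntegrable_iff]
    exact (integrableOn_const (by simp)).indicator measurableSet_Iic

lemma intg_le (a b : ℝ) : IntervalIntegrable (fun θ : ℝ => if θ ≤ a then (1 : ℝ) else 0)
    volume 0 b := by
  have : (fun θ : ℝ => if θ ≤ a then (1 : ℝ) else 0) = (Set.Iic a).indicator (fun _ => 1) := by
    ext θ; simp [Set.indicator]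
  rw [this, intervalIntegrable_iff]
  exact (integrableOn_const (by simp)).indicator measurableSet_Iic

lemma intg_gt (a b : ℝ) : IntervalIntegrable (fun θ : ℝ => if a < θ then (1 : ℝ) else 0)
    volume 0 b := by
  have : (fun θ : ℝ => if a < θ then (1 : ℝ) else 0) = (Set.Ioi a).indicator (fun _ => 1) := by
    ext θ; simp [Set.indicator]
  rw [this, intervalIntegrable_iff]
  exact (integrableOn_const (by simp)).indicator measurableSet_Ioi

theorem imp_weights (h : Stmt_OCT) (V : Finset Pt) (hV : TriFree (V : Set Pt)) (w : Pt → ℝ)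
    (hw0 : ∀ v ∈ V, 0 ≤ w v) (M : ℝ) (hM0 : 0 ≤ M) (hM1 : ∀ v ∈ V, w v ≤ M)
    (hM2 : ∀ v ∈ V, ∀ k, v + e k ∈ V → w v + w (v + e k) ≤ M)
    (z : Pt → ℝ) (hz : ∀ v ∈ V, 0 ≤ z v) :
    ∃ S ⊆ V, Stable S ∧ ∑ v ∈ V, z v * w v ≤ (9 / 8 * M) * ∑ v ∈ S, z v := by
  classical
  obtain ⟨S0, hS0, hmax⟩ := Finset.exists_max_image (V.powerset.filter (fun S => Stable S))
    (fun S => ∑ v ∈ S, z v) ⟨∅, by simp [Stable]⟩
  rw [Finset.mem_filter, Finset.mem_powerset] at hS0
  refine ⟨S0, hS0.1, hS0.2, ?_⟩
  set Z := ∑ v ∈ S0, z v with hZ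
  have hmax' : ∀ S ⊆ V, Stable S → ∑ v ∈ S, z v ≤ Z := by
    intro S hS hst
    exact hmax S (by rw [Finset.mem_filter, Finset.mem_powerset]; exact ⟨hS, hst⟩)
  set f : Pt → ℝ → ℝ := fun v θ => (if θ ≤ w v then (1 : ℝ) else 0) +
    (if M - w v < θ then (1 : ℝ) else 0) with hf
  have hfint : ∀ v, IntervalIntegrable (f v) volume 0 (M / 2) := fun v =>
    (intg_le _ _).add (intg_gt _ _)
  have hfval : ∀ v ∈ V, ∫ θ in (0 : ℝ)..(M / 2), f v θ = w v := by
    intro v hv
    have h0 := hw0 v hv
    have h1 := hM1 v hv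
    rw [hf]
    dsimp only
    rw [intervalIntegral.integral_add (intg_le _ _) (intg_gt _ _),
      int_le _ _ h0 (by linarith), int_gt _ _ (by linarith) (by linarith)]
    rcases le_total (w v) (M / 2) with h | h
    · rw [min_eq_left h, min_eq_right (by linarith)]; ring
    · rw [min_eq_right h, min_eq_left (by linarith)]; ring
  have hpt : ∀ θ ∈ Set.Icc (0 : ℝ) (M / 2), ∑ v ∈ V, z v * f v θ ≤ 9 / 4 * Z := by
    intro θ hθ
    set V1 := V.filter (fun v => M - θ < w v) with hV1
    set Vh := V.filter (fun v => θ ≤ w v ∧ w v ≤ M - θ) with hVh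
    have hVhV : Vh ⊆ V := Finset.filter_subset _ _
    have hTF : TriFree (Vh : Set Pt) := by
      intro v hv k hk hk1
      exact hV v (hVhV hv) k (hVhV hk) (hVhV hk1)
    obtain ⟨S', hS', hst', hle⟩ := weighted_real h Vh z (fun v hv => hz v (hVhV hv)) hTF
    have hdisj : Disjoint V1 S' := by
      rw [Finset.disjoint_left]
      intro v hv hv'
      have h1 := (Finset.mem_filter.1 hv).2
      have h2 := (Finset.mem_filter.1 (hS' hv')).2.2
      linarith
    have hst : Stable (V1 ∪ S') := by
      intro u hu k huk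
      have key : ∀ a ∈ V1 ∪ S', θ ≤ w a := by
        intro a ha
        rcases Finset.mem_union.1 ha with ha | ha
        · have h1 := (Finset.mem_filter.1 ha).2
          have h2 := hθ.2
          linarith
        · exact (Finset.mem_filter.1 (hS' ha)).2.1
      have keyV : ∀ a ∈ V1 ∪ S', a ∈ V := by
        intro a ha
        rcases Finset.mem_union.1 ha with ha | ha
        · exact (Finset.mem_filter.1 ha).1
        · exact hVhV (hS' ha)
      have hsum := hM2 u (keyV u hu) k (keyV _ huk)
      have ku := key u hu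
      have kuk := key _ huk
      rcases Finset.mem_union.1 hu with hu' | hu'
      · have h1 := (Finset.mem_filter.1 hu').2
        linarith
      · rcases Finset.mem_union.1 huk with huk' | huk'
        · have h1 := (Finset.mem_filter.1 huk').2
          linarith
        · exact hst' u hu' k huk'
    have hI := hmax' (V1 ∪ S') (Finset.union_subset (Finset.filter_subset _ _)
      (hS'.trans hVhV)) hst
    rw [Finset.sum_union hdisj] at hI
    have hz1 : 0 ≤ ∑ v ∈ V1, z v := Finset.sum_nonneg (fun v hv => hz v (Finset.mem_filter.1 hv).1)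
    have hsum : ∑ v ∈ V, z v * f v θ = ∑ v ∈ Vh, z v + 2 * ∑ v ∈ V1, z v := by
      rw [hVh, hV1, Finset.sum_filter, Finset.sum_filter, Finset.mul_sum, ← Finset.sum_add_distrib]
      apply Finset.sum_congr rfl
      intro v hv
      rw [hf]
      dsimp only
      by_cases h1 : θ ≤ w v
      · by_cases h2 : M - w v < θ
        · have h3 : M - θ < w v := by linarith
          have h4 : ¬ (w v ≤ M - θ) := by linarith
          simp [h1, h2, h3, h4]
          ring
        · have h3 : ¬ (M - θ < w v) := by intro h; apply h2; linarith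
          have h4 : w v ≤ M - θ := by linarith
          simp [h1, h2, h3, h4]
      · have h2 : ¬ (M - w v < θ) := by
          intro h
          have := hθ.2
          push Not at h1
          linarith
        have h3 : ¬ (M - θ < w v) := by intro h; apply h2; linarith
        simp [h1, h2, h3]
    rw [hsum]
    linarith
  have hint : ∑ v ∈ V, z v * w v = ∫ θ in (0 : ℝ)..(M / 2), ∑ v ∈ V, z v * f v θ := by
    rw [intervalIntegral.integral_finset_sum (fun v _ => (hfint v).const_mul _)]
    apply Finset.sum_congr rfl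
    intro v hv
    rw [intervalIntegral.integral_const_mul, hfval v hv]
  rw [hint]
  calc ∫ θ in (0 : ℝ)..(M / 2), ∑ v ∈ V, z v * f v θ
      ≤ ∫ _ in (0 : ℝ)..(M / 2), 9 / 4 * Z := by
        apply intervalIntegral.integral_mono_on (by linarith)
        · have := IntervalIntegrable.sum V (μ := volume) (a := 0) (b := M / 2)
            (f := fun v θ => z v * f v θ) (fun v _ => (hfint v).const_mul _)
          rw [Finset.sum_fn] at this
          exact this
        · exact intervalIntegrable_const
        · exact hpt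
    _ = 9 / 8 * M * Z := by
        rw [intervalIntegral.integral_const]
        simp only [smul_eq_mul]
        ring

theorem e_ne_zero (k : ZMod 6) : e k ≠ 0 := by revert k; decide

/-- `χ_f(G_w) ≤ 9/8 ω(G_w)` for triangle-free induced subgraphs of the triangular lattice and
all real demands `w`. -/
theorem imp_triangleFree (h : Stmt_OCT) (S : Finset (ℤ × ℤ))
    (hS : (triLattice.induce (S : Set (ℤ × ℤ))).CliqueFree 3)
    (w : ℤ × ℤ → ℝ) (hw : ∀ v, 0 ≤ w v) (M : ℝ)
    (hM : ∀ C : Finset (ℤ × ℤ), C ⊆ S → triLattice.IsClique (C : Set (ℤ × ℤ)) →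
      ∑ v ∈ C, w v ≤ M) :
    ∃ c : Finset (ℤ × ℤ) → ℝ, (∀ I, 0 ≤ c I) ∧
      (∀ I, c I ≠ 0 → I ⊆ S ∧ triLattice.IsIndepSet (I : Set (ℤ × ℤ))) ∧
      (∀ v ∈ S, w v ≤ ∑ I ∈ S.powerset with v ∈ I, c I) ∧
      ∑ I ∈ S.powerset, c I ≤ 9 / 8 * M := by
  classical
  have hTF := triFree_of_cliqueFree S hS
  have hM0 : 0 ≤ M := by
    have := hM ∅ (Finset.empty_subset _) (by simp)
    simpa using this
  have hM1 : ∀ v ∈ S, w v ≤ M := by
    intro v hv
    have := hM {v} (by simpa using hv) (by simp)
    simpa using this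
  rcases hM0.eq_or_lt with h0 | hpos
  · refine ⟨fun _ => 0, fun _ => le_refl _, fun I hI => absurd rfl hI, fun v hv => ?_, ?_⟩
    · have := hM1 v hv
      simp only [Finset.sum_const_zero]
      linarith
    · simp [← h0]
  have hM2 : ∀ v ∈ S, ∀ k, v + e k ∈ S → w v + w (v + e k) ≤ M := by
    intro v hv k hk
    have hne : v ≠ v + e k := by
      intro h
      have : e k = 0 := by
        have := congrArg (fun x => x - v) h
        simpa using this.symm
      exact e_ne_zero k this
    have := hM {v, v + e k} (by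
      intro x hx
      simp only [Finset.mem_insert, Finset.mem_singleton] at hx
      rcases hx with rfl | rfl <;> assumption) (by
      rw [Finset.coe_pair, SimpleGraph.isClique_pair]
      intro _
      exact (triLattice_adj _ _).2 ⟨k, rfl⟩)
    rwa [Finset.sum_pair hne] at this
  obtain ⟨y, h0, h1, h2, h3⟩ := frac_of_weights S w (9 / 8 * M) (by positivity) (fun v _ => hw v)
    (fun z hz => imp_weights h S hTF w (fun v _ => hw v) M hM0 hM1 hM2 z hz)
  refine ⟨y, h0, fun I hI => ⟨(h1 I hI).1, indep_of_stable (h1 I hI).2⟩, fun v hv => ?_, h3⟩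
  rw [Finset.sum_filter]
  exact h2 v hv

end Pool.Agent.H171R2.Tri
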