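import Pool.Agent.H171R2.Tri.DC

namespace Pool.Agent.H171R2.Tri

open Finset

lemma e_add3 (k : ZMod 6) : e (k + 3) = - e k := by revert k; decide

lemma z6a (k : ZMod 6) : k + 3 + 2 = k - 1 := by revert k; decide

lemma z6b (k : ZMod 6) : k - 1 - 1 = k + 3 + 1 := by revert k; decide

lemma par_add3 (k : ZMod 6) : par (k + 3) = !par k := by revert k; decide

lemma par_add1 (k : ZMod 6) : par (k + 1) = !par k := by revert k; decide

lemma par_sub1 (k : ZMod 6) : par (k - 1) = !par k := by revert k; decide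

lemma par_add2 (k : ZMod 6) : par (k + 2) = par k := by revert k; decide

lemma par_add4 (k : ZMod 6) : par (k + 4) = par k := by revert k; decide

/-- adjacent directions are not both occupied -/
lemma TriFree.adj {V : Set Pt} (hV : TriFree V) {v : Pt} (hv : v ∈ V) (k : ZMod 6)
    (h : v + e k ∈ V) : v + e (k + 1) ∉ V ∧ v + e (k - 1) ∉ V := by
  refine ⟨hV v hv k h, fun h' => ?_⟩
  have := hV v hv (k - 1) h'
  rw [sub_add_cancel] at this
  exact this h

namespace Packing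

variable {V : Finset Pt} {w : Pt → ℕ} {K : ℕ}

lemma mem_next (P : Packing V w K) (i : Fin K) (v : Pt) (k : ZMod 6) :
    P.mem i (v + e k) (k + 2) = P.mem i v k := P.compat i v k

lemma mem_next3 (P : Packing V w K) (i : Fin K) (v : Pt) (k : ZMod 6) :
    P.mem i (v + e k) (k + 3) = P.mem i v (k - 1) := by
  have h := P.compat i (v + e k) (k + 3)
  rw [e_add3, add_neg_cancel_right] at h
  rw [z6a] at h
  exact h.symm

lemma mem_B (P : Packing V w K) {i : Fin K} {b : Pt × ZMod 6} :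
    b ∈ P.B i ↔ b.1 ∈ V ∧ P.mem i b.1 b.2 = true ∧ P.mem i b.1 (b.2 - 1) = false := by
  simp [B]

/-- sector constancy at a straight vertex (`a` = incoming travel direction) -/
lemma const_straight (P : Packing V w K) (hV : TriFree (V : Set Pt)) {v : Pt} (hv : v ∈ V)
    {a : ZMod 6} (h1 : v + e (a + 3) ∈ V) (h2 : v + e a ∈ V) (j : Fin K) :
    P.mem j v a = P.mem j v (a + 2) ∧ P.mem j v (a - 1) = P.mem j v (a + 3) := by
  have n1 := hV.adj hv _ h1
  have n2 := hV.adj hv _ h2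
  have m1 := P.nonedge j v hv (a + 1) n2.1
  have m2 := P.nonedge j v hv (a - 1) n2.2
  have m3 := P.nonedge j v hv (a + 3 + 1) n1.1
  have m4 := P.nonedge j v hv (a + 3 - 1) n1.2
  have r1 : a + 1 - 1 = a := by ring
  have r2 : a - 1 - 1 = a + 3 + 1 := z6b a
  have r3 : a + 3 + 1 - 1 = a + 3 := by ring
  have r4 : a + 3 - 1 = a + 2 := by ring
  have r5 : a + 3 - 1 - 1 = a + 1 := by ring
  rw [r1] at m1; rw [r2] at m2; rw [r3] at m3; rw [r5, r4] at m4
  exact ⟨by rw [m4, m1], by rw [m2, m3]⟩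

lemma const_left (P : Packing V w K) (hV : TriFree (V : Set Pt)) {v : Pt} (hv : v ∈ V)
    {a : ZMod 6} (h1 : v + e (a + 3) ∈ V) (h2 : v + e (a + 1) ∈ V) (h3 : v + e (a - 1) ∉ V)
    (j : Fin K) :
    P.mem j v (a + 1) = P.mem j v (a + 2) ∧ P.mem j v a = P.mem j v (a + 3) := by
  have n1 := hV.adj hv _ h1
  have n2 := hV.adj hv _ h2
  have m1 := P.nonedge j v hv (a + 1 + 1) n2.1
  have m2 := P.nonedge j v hv (a + 1 - 1) n2.2
  have m3 := P.nonedge j v hv (a + 3 + 1) n1.1
  have m5 := P.nonedge j v hv (a - 1) h3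
  have r1 : a + 1 + 1 = a + 2 := by ring
  have r1' : a + 2 - 1 = a + 1 := by ring
  have r2 : a + 1 - 1 = a := by ring
  have r3 : a + 3 + 1 - 1 = a + 3 := by ring
  have r5 : a - 1 - 1 = a + 3 + 1 := z6b a
  rw [r1, r1'] at m1; rw [r2] at m2; rw [r3] at m3; rw [r5] at m5
  exact ⟨by rw [m1], by rw [m2, m5, m3]⟩

lemma const_right (P : Packing V w K) (hV : TriFree (V : Set Pt)) {v : Pt} (hv : v ∈ V)
    {a : ZMod 6} (h1 : v + e (a + 3) ∈ V) (h2 : v + e (a - 1) ∈ V) (h3 : v + e (a + 1) ∉ V)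
    (j : Fin K) :
    P.mem j v (a - 1) = P.mem j v (a + 2) ∧ P.mem j v (a - 1 - 1) = P.mem j v (a + 3) := by
  have n1 := hV.adj hv _ h1
  have n2 := hV.adj hv _ h2
  have m1 := P.nonedge j v hv (a - 1 + 1) n2.1
  have m3 := P.nonedge j v hv (a + 3 + 1) n1.1
  have m4 := P.nonedge j v hv (a + 3 - 1) n1.2
  have m5 := P.nonedge j v hv (a + 1) h3
  have r1 : a - 1 + 1 = a := by ring
  have r3 : a + 3 + 1 - 1 = a + 3 := by ring
  have r3' : a - 1 - 1 = a + 3 + 1 := z6b a
  have r4 : a + 3 - 1 = a + 2 := by ring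
  have r4' : a + 2 - 1 = a + 1 := by ring
  have r5 : a + 1 - 1 = a := by ring
  rw [r1] at m1; rw [r3] at m3; rw [r4, r4'] at m4; rw [r5] at m5
  exact ⟨by rw [m4, m5, m1], by rw [r3', m3]⟩

lemma key_congr (P : Packing V w K) {j : Fin K} {v v' : Pt} {k k' : ZMod 6}
    (h : P.mem j v k = P.mem j v' k') : P.key j v k = P.key j v' k' := by
  unfold key; rw [h]

lemma X_congr (P : Packing V w K) {v v' : Pt} {k k' : ZMod 6}
    (h : ∀ j, P.mem j v k = P.mem j v' k') (h' : ∀ j, P.mem j v (k - 1) = P.mem j v' (k' - 1)) :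
    P.X v k = P.X v' k' := by
  unfold X
  apply Finset.filter_congr
  intro j _
  rw [h, h']

lemma rk_congr (P : Packing V w K) {v v' : Pt} {k k' : ZMod 6}
    (h : ∀ j, P.mem j v k = P.mem j v' k') (h' : ∀ j, P.mem j v (k - 1) = P.mem j v' (k' - 1))
    (j : Fin K) : P.rk j v k = P.rk j v' k' := by
  unfold rk
  rw [P.X_congr h h']
  congr 1
  apply Finset.filter_congr
  intro j' _
  rw [P.key_congr (h j), P.key_congr (h j')]

end Packing

end Pool.Agent.H171R2.Tri
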