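import Pool.Agent.H171R2.Tri.DCProof
import Pool.Agent.H171R2.Tri.Imp
import Pool.Agent.H477R2.Tri.T1
import Pool.Agent.H722R2.Tri.T2
import Pool.Agent.H273R2.Tri.T4
import Pool.Agent.H273R2.Tri.D4
import Pool.Agent.H273R2.Tri.D5
import Pool.Agent.H896R2.Tri.D1
import Pool.Agent.H896R2.Tri.T7
import Pool.Agent.H175R2.Tri.T6
import Pool.Agent.H591R2.Tri.T5

namespace Pool.Agent.H171R2.Tri

/-- the discharging theorem -/
theorem dc_main : Stmt_DC :=
  dc t4 d1 d2 d3 d4 (d5 d1 d2) (pt t5_words t6)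

/-- weighted bipartisation of triangle-free hexagonal graphs -/
theorem oct_main : Stmt_OCT := t7a (t2 t1) dc_main

end Pool.Agent.H171R2.Tri
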