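import Pool.Agent.H171R2.Tri.Poly

namespace Pool.Agent.H171R2.Tri

open Finset

lemma z24 (A : ZMod 6) : A + 2 + 4 = A := by revert A; decide
lemma z42 (A : ZMod 6) : A + 4 + 2 = A := by revert A; decide
lemma z51 (A : ZMod 6) : A + 5 + 1 = A := by revert A; decide
lemma zm1 (A : ZMod 6) : A - 1 = A + 5 := by revert A; decide
lemma z6cases (A z : ZMod 6) :
    z = A ∨ z = A + 1 ∨ z = A + 2 ∨ z = A + 3 ∨ z = A + 4 ∨ z = A + 5 := by
  revert A z; decide

lemma D3.rot {V : Finset Pt} {v : Pt} {A : ZMod 6} (h : D3 V v A) : D3 V v (A + 2) := by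
  obtain ⟨h0, h1, h2, h3⟩ := h
  have e1 : A + 2 + 2 = A + 4 := by ring
  have e2 : A + 2 + 4 = A := z24 A
  refine ⟨h0, h2, ?_, ?_⟩
  · rwa [e1]
  · rwa [e2]

namespace Packing

variable {V : Finset Pt} {w : Pt → ℕ} {K : ℕ}

/-- type of a cut on an edge -/
def typE (P : Packing V w K) (i : Fin K) (v : Pt) (k : ZMod 6) : Bool :=
  decide (2 * P.rk i v k ≤ (P.X v k).card)

/-- label of a cut on an edge -/
def labE (P : Packing V w K) (lp : Fin K → Bool) (i : Fin K) (v : Pt) (k : ZMod 6) : Bool :=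
  decide (∀ j ∈ P.X v k, P.rk j v k + P.rk i v k = (P.X v k).card + 1 →
    P.lowE lp i v k = P.lowE lp j v k)

lemma typE_congr (P : Packing V w K) {v v' : Pt} {k k' : ZMod 6}
    (h : ∀ j, P.mem j v k = P.mem j v' k') (h' : ∀ j, P.mem j v (k - 1) = P.mem j v' (k' - 1))
    (i : Fin K) : P.typE i v k = P.typE i v' k' := by
  unfold typE
  rw [P.rk_congr h h', P.X_congr h h']

lemma labE_congr (P : Packing V w K) (lp : Fin K → Bool) {v v' : Pt} {k k' : ZMod 6}
    (h : ∀ j, P.mem j v k = P.mem j v' k') (h' : ∀ j, P.mem j v (k - 1) = P.mem j v' (k' - 1))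
    (i : Fin K) : P.labE lp i v k = P.labE lp i v' k' := by
  unfold labE
  rw [P.X_congr h h']
  congr 1
  apply propext
  apply forall_congr'
  intro j
  rw [P.rk_congr h h', P.rk_congr h h']
  apply imp_congr_right
  intro _
  apply imp_congr_right
  intro _
  unfold lowE
  rw [h i, h j]
  generalize par k = a
  generalize par k' = b
  generalize lp i = x
  generalize lp j = y
  generalize P.mem i v' k' = s
  generalize P.mem j v' k' = t
  revert a b x y s t
  decide

lemma labE_eq (P : Packing V w K) (h1 : Stmt_D1) (h2 : Stmt_D2) (lp : Fin K → Bool) {v : Pt}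
    {k : ZMod 6} {i j : Fin K} (hj : j ∈ P.X v k)
    (hs : P.rk j v k + P.rk i v k = (P.X v k).card + 1) :
    P.labE lp i v k = decide (P.lowE lp i v k = P.lowE lp j v k) := by
  unfold labE
  congr 1
  apply propext
  constructor
  · intro h; exact h j hj hs
  · intro h j' hj' hs'
    have hr : P.rk j' v k = P.rk j v k := by omega
    have := (h1 (Fin K) inferInstance (P.X v k) (fun j => P.key j v k)
      (fun x _ y _ hxy => (h2 V w K P).1 v k x y hxy)).2.1 j' hj' j hj hr
    rw [this]; exact h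

lemma lowE_cls (P : Packing V w K) (lp : Fin K → Bool) {v : Pt} {A : ZMod 6} {j : Fin K}
    (hj : j ∈ P.cls v A) : P.lowE lp j v (A + 2) = !P.lowE lp j v A := by
  simp only [cls, mem_filter, mem_univ, true_and] at hj
  unfold lowE
  rw [par_add2]
  have := hj.1
  revert this
  generalize par A = a
  generalize lp j = b
  generalize P.mem j v A = x
  generalize P.mem j v (A + 2) = y
  revert a b x y
  decide

lemma lowE_back (P : Packing V w K) (lp : Fin K → Bool) {u : Pt} {k : ZMod 6} {j : Fin K}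
    (hj : j ∈ P.X u k) : P.lowE lp j (u + e k) (k + 3) = P.lowE lp j u k := by
  simp only [X, mem_filter, mem_univ, true_and] at hj
  unfold lowE
  rw [par_add3, P.mem_next3]
  revert hj
  generalize par k = a
  generalize lp j = b
  generalize P.mem j u k = x
  generalize P.mem j u (k - 1) = y
  revert a b x y
  decide

lemma typE_back (P : Packing V w K) (h2 : Stmt_D2) (i : Fin K) (u : Pt) (k : ZMod 6) :
    P.typE i u k = decide (2 * P.rkR i (u + e k) (k + 3) ≤ (P.X (u + e k) (k + 3)).card) := by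
  have h := h2 V w K P
  unfold typE
  rw [h.2.2.1, h.2.2.2.2]

lemma labE_back (P : Packing V w K) (h1 : Stmt_D1) (h2 : Stmt_D2) (lp : Fin K → Bool) {u : Pt}
    {k : ZMod 6} {i j : Fin K} (hi : i ∈ P.X (u + e k) (k + 3)) (hj : j ∈ P.X (u + e k) (k + 3))
    (hs : P.rkR j (u + e k) (k + 3) + P.rkR i (u + e k) (k + 3) =
      (P.X (u + e k) (k + 3)).card + 1) :
    P.labE lp i u k =
      decide (P.lowE lp i (u + e k) (k + 3) = P.lowE lp j (u + e k) (k + 3)) := by
  have h := h2 V w K P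
  rw [h.2.2.1] at hi hj hs
  rw [h.2.2.2.2, h.2.2.2.2] at hs
  rw [P.lowE_back lp hi, P.lowE_back lp hj]
  exact P.labE_eq h1 h2 lp hj hs

lemma cls_rot (P : Packing V w K) {v : Pt} {A : ZMod 6} : P.cls v (A + 2 + 4) = P.cls v A := by
  have e2 : A + 2 + 4 = A := z24 A
  rw [e2]

/-- facts about a level -/
lemma level_facts (P : Packing V w K) (h2 : Stmt_D2) (h3 : Stmt_D3)
    (hV : TriFree (V : Set Pt)) {v : Pt} {A : ZMod 6} {i j1 j2 : Fin K} (hl : P.Lev v A i j1 j2) :
    i ∈ P.X v A ∧ j2 ∈ P.X v A ∧ i ∈ P.X v (A + 2) ∧ j1 ∈ P.X v (A + 2) ∧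
    2 * P.rk i v A ≤ (P.X v A).card ∧ 2 * P.rkR i v (A + 2) ≤ (P.X v (A + 2)).card ∧
    P.rk i v A + P.rkR i v A = (P.X v A).card + 1 ∧
    P.rk i v (A + 2) + P.rkR i v (A + 2) = (P.X v (A + 2)).card + 1 ∧
    P.rk j2 v A + P.rk i v A = (P.X v A).card + 1 ∧
    P.rkR j2 v A + P.rkR i v A = (P.X v A).card + 1 ∧
    P.rk j1 v (A + 2) + P.rk i v (A + 2) = (P.X v (A + 2)).card + 1 ∧
    P.rkR j1 v (A + 2) + P.rkR i v (A + 2) = (P.X v (A + 2)).card + 1 := by
  obtain ⟨hD, hi, hj1, hj2, hr1, hr2⟩ := hl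
  obtain ⟨-, hX, hdis, -, -, hrk, hrkR⟩ := h3 V w K P hV v A hD
  obtain ⟨-, hX', hdis', -, -, hrk', hrkR'⟩ := h3 V w K P hV v (A + 2) hD.rot
  rw [P.cls_rot] at hX' hdis' hrkR'
  have h := h2 V w K P
  have c1 : (P.X v A).card = (P.cls v A).card + (P.cls v (A + 4)).card := by
    rw [hX, card_union_of_disjoint hdis]
  have c2 : (P.X v (A + 2)).card = (P.cls v (A + 2)).card + (P.cls v A).card := by
    rw [hX', card_union_of_disjoint hdis']
  have i1 : i ∈ P.X v A := by rw [hX]; exact mem_union_left _ hi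
  have i2 : j2 ∈ P.X v A := by rw [hX]; exact mem_union_right _ hj2
  have i3 : i ∈ P.X v (A + 2) := by rw [hX']; exact mem_union_right _ hi
  have i4 : j1 ∈ P.X v (A + 2) := by rw [hX']; exact mem_union_left _ hj1
  have l0 : P.crk i v A ≤ (P.cls v A).card := card_filter_le _ _
  have l1 : P.crk j1 v (A + 2) ≤ (P.cls v (A + 2)).card := card_filter_le _ _
  have l2 : P.crk j2 v (A + 4) ≤ (P.cls v (A + 4)).card := card_filter_le _ _
  have r1 := hrk i hi
  have r2 := hrkR j2 hj2
  have r3 := hrk' j1 hj1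
  have r4 := hrkR' i hi
  have s1 := h.2.1 v A i i1
  have s2 := h.2.1 v A j2 i2
  have s3 := h.2.1 v (A + 2) i i3
  have s4 := h.2.1 v (A + 2) j1 i4
  have e2 : P.crk i v (A + 2 + 4) = P.crk i v A := by
    have e2 : A + 2 + 4 = A := z24 A
    rw [e2]
  rw [e2] at r4
  refine ⟨i1, i2, i3, i4, ?_, ?_, ?_, ?_, ?_, ?_, ?_, ?_⟩ <;> omega

end Packing

/-- a walk which is a boundary of the `i`-th set -/
structure Orb {V : Finset Pt} {w : Pt → ℕ} {K : ℕ} (P : Packing V w K) (i : Fin K)
    (p : ℤ → Pt) (d : ℤ → ZMod 6) : Prop extends Walk V p d where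
  m1 : ∀ k, P.mem i (p k) (d k) = true
  m2 : ∀ k, P.mem i (p k) (d k - 1) = false

namespace Orb

variable {V : Finset Pt} {w : Pt → ℕ} {K : ℕ} {P : Packing V w K} {i : Fin K}
  {p : ℤ → Pt} {d : ℤ → ZMod 6}

lemma const (O : Orb P i p d) (hV : TriFree (V : Set Pt)) (k : ℤ)
    (h : d (k + 1) = d k ∨
        (d (k + 1) = d k + 1 ∧ p (k + 1) + e (d k - 1) ∉ (V : Set Pt)) ∨
        (d (k + 1) = d k - 1 ∧ p (k + 1) + e (d k + 1) ∉ (V : Set Pt))) (j : Fin K) :
    P.mem j (p (k + 1)) (d (k + 1)) = P.mem j (p k) (d k) ∧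
    P.mem j (p (k + 1)) (d (k + 1) - 1) = P.mem j (p k) (d k - 1) := by
  have hv := O.mem (k + 1)
  have hb : p (k + 1) + e (d k + 3) ∈ V := by rw [O.back k]; exact O.mem k
  have hf : p (k + 1) + e (d (k + 1)) ∈ V := by rw [← O.step2 k]; exact O.mem (k + 2)
  have a1 := P.mem_next j (p k) (d k)
  have a2 := P.mem_next3 j (p k) (d k)
  rw [← O.step k] at a1 a2
  rw [← a1, ← a2]
  rcases h with h | ⟨h, h'⟩ | ⟨h, h'⟩
  · rw [h] at hf ⊢
    exact P.const_straight hV hv hb hf j
  · rw [h] at hf ⊢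
    rw [add_sub_cancel_right]
    exact P.const_left hV hv hb hf h' j
  · rw [h] at hf ⊢
    exact P.const_right hV hv hb hf h' j

lemma typ_const (O : Orb P i p d) (hV : TriFree (V : Set Pt)) (k : ℤ)
    (h : d (k + 1) = d k ∨
        (d (k + 1) = d k + 1 ∧ p (k + 1) + e (d k - 1) ∉ (V : Set Pt)) ∨
        (d (k + 1) = d k - 1 ∧ p (k + 1) + e (d k + 1) ∉ (V : Set Pt))) :
    P.typE i (p (k + 1)) (d (k + 1)) = P.typE i (p k) (d k) :=
  P.typE_congr (fun j => (O.const hV k h j).1) (fun j => (O.const hV k h j).2) i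

lemma lab_const (O : Orb P i p d) (hV : TriFree (V : Set Pt)) (lp : Fin K → Bool) (k : ℤ)
    (h : d (k + 1) = d k ∨
        (d (k + 1) = d k + 1 ∧ p (k + 1) + e (d k - 1) ∉ (V : Set Pt)) ∨
        (d (k + 1) = d k - 1 ∧ p (k + 1) + e (d k + 1) ∉ (V : Set Pt))) :
    P.labE lp i (p (k + 1)) (d (k + 1)) = P.labE lp i (p k) (d k) :=
  P.labE_congr lp (fun j => (O.const hV k h j).1) (fun j => (O.const hV k h j).2) i

/-- directions at a vertex of a level -/
lemma dirs (O : Orb P i p d) (h3 : Stmt_D3) (hV : TriFree (V : Set Pt)) (k : ℤ) {A : ZMod 6}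
    (hD : D3 V (p (k + 1)) A) (hi : i ∈ P.cls (p (k + 1)) A) :
    (P.mem i (p (k + 1)) A = true → d (k + 1) = A ∧ d k + 3 = A + 2) ∧
    (P.mem i (p (k + 1)) A = false → d (k + 1) = A + 2 ∧ d k + 3 = A) := by
  obtain ⟨hm, -⟩ := h3 V w K P hV _ A hD
  obtain ⟨b1, b2, b3⟩ := hm i
  simp only [Packing.cls, mem_filter, mem_univ, true_and] at hi
  have a1 := P.mem_next i (p k) (d k)
  have a2 := P.mem_next3 i (p k) (d k)
  rw [← O.step k, O.m1 k] at a1
  rw [← O.step k, O.m2 k] at a2
  have a3 := O.m1 (k + 1)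
  have a4 := O.m2 (k + 1)
  revert a1 a2 a3 a4 hi b1 b2 b3
  generalize P.mem i (p (k + 1)) = f
  generalize d (k + 1) = y
  generalize d k = x
  clear hD hm
  intro b1 b2 b3 hi a1 a2 a3 a4
  have key := z6cases A
  have s1 : A + 1 - 1 = A := by ring
  have s2 : A + 2 - 1 = A + 1 := by ring
  have s3 : A + 3 - 1 = A + 2 := by ring
  have s4 : A + 4 - 1 = A + 3 := by ring
  have s5 : A + 5 - 1 = A + 4 := by ring
  have t2 : x + 3 = x + 2 + 1 := by ring
  have u5 : A + 5 + 1 = A := z51 A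
  constructor
  · intro hA
    have g2 : f (A + 2) = false := by
      cases h : f (A + 2)
      · rfl
      · exact absurd (hA.trans h.symm) hi.1
    have g4 : f (A + 4) = false := by rw [← hi.2, g2]
    constructor
    · rcases key y with h | h | h | h | h | h
      · exact h
      · rw [h, s1, hA] at a4; simp at a4
      · rw [h, g2] at a3; simp at a3
      · rw [h, b2, g2] at a3; simp at a3
      · rw [h, g4] at a3; simp at a3
      · rw [h, b3, g4] at a3; simp at a3
    · rcases key (x + 2) with h | h | h | h | h | h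
      · rw [t2, h, b1, hA] at a2; simp at a2
      · rw [t2, h]; ring
      · rw [h, g2] at a1; simp at a1
      · rw [h, b2, g2] at a1; simp at a1
      · rw [h, g4] at a1; simp at a1
      · rw [h, b3, g4] at a1; simp at a1
  · intro hA
    have g2 : f (A + 2) = true := by
      cases h : f (A + 2)
      · exact absurd (hA.trans h.symm) hi.1
      · rfl
    have g4 : f (A + 4) = true := by rw [← hi.2, g2]
    constructor
    · rcases key y with h | h | h | h | h | h
      · rw [h, hA] at a3; simp at a3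
      · rw [h, b1, hA] at a3; simp at a3
      · exact h
      · rw [h, s3, g2] at a4; simp at a4
      · rw [h, s4, b2, g2] at a4; simp at a4
      · rw [h, s5, g4] at a4; simp at a4
    · rcases key (x + 2) with h | h | h | h | h | h
      · rw [h, hA] at a1; simp at a1
      · rw [h, b1, hA] at a1; simp at a1
      · have : A + 2 + 1 = A + 3 := by ring
        rw [t2, h, this, b2, g2] at a2; simp at a2
      · have : A + 3 + 1 = A + 4 := by ring
        rw [t2, h, this, g4] at a2; simp at a2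
      · have : A + 4 + 1 = A + 5 := by ring
        rw [t2, h, this, b3, g4] at a2; simp at a2
      · rw [t2, h, u5]

end Orb

end Pool.Agent.H171R2.Tri
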