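import Pool.Agent.H171R2.Tri.Loc

namespace Pool.Agent.H171R2.Tri

open Finset

/-- a walk with turns of at most 60 degrees in `V` -/
structure Walk (V : Finset Pt) (p : ℤ → Pt) (d : ℤ → ZMod 6) : Prop where
  step : ∀ k, p (k + 1) = p k + e (d k)
  turn : ∀ k, d (k + 1) = d k ∨ d (k + 1) = d k + 1 ∨ d (k + 1) = d k - 1
  mem : ∀ k, p k ∈ V

namespace Walk

variable {V : Finset Pt} {p : ℤ → Pt} {d : ℤ → ZMod 6}

lemma back (W : Walk V p d) (k : ℤ) : p (k + 1) + e (d k + 3) = p k := by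
  rw [W.step k, e_add3, add_neg_cancel_right]

lemma step2 (W : Walk V p d) (k : ℤ) : p (k + 2) = p (k + 1) + e (d (k + 1)) := by
  have := W.step (k + 1)
  rwa [add_assoc] at this

lemma long_out (W : Walk V p d) (hV : TriFree (V : Set Pt)) (k : ℤ) :
    longDir V (p (k + 1)) (d (k + 1)) = true ↔ d (k + 2) = d (k + 1) := by
  have e1 : k + 1 + 1 = k + 2 := by ring
  have e2 : k + 2 + 1 = k + 3 := by ring
  have h1 := W.step2 k
  have h2 := W.step (k + 2)
  rw [e2] at h2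
  have h3 := W.mem (k + 3)
  have h4 := W.mem (k + 2)
  have h5 := W.turn (k + 1)
  rw [e1] at h5
  unfold longDir
  rw [decide_eq_true_iff, ← h1]
  constructor
  · rintro ⟨-, h⟩
    have n := hV.adj h4 _ h
    rcases h5 with h5 | h5 | h5
    · exact h5
    · exfalso; rw [h2, h5] at h3; exact n.1 h3
    · exfalso; rw [h2, h5] at h3; exact n.2 h3
  · intro h
    refine ⟨h4, ?_⟩
    rw [← h, ← h2]; exact h3

lemma long_in (W : Walk V p d) (hV : TriFree (V : Set Pt)) (k : ℤ) :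
    longDir V (p (k + 1)) (d k + 3) = true ↔ d (k - 1) = d k := by
  have h1 := W.back k
  have h2 := W.back (k - 1)
  have h5 := W.turn (k - 1)
  rw [sub_add_cancel] at h2 h5
  have h3 := W.mem (k - 1)
  have h4 := W.mem k
  unfold longDir
  rw [decide_eq_true_iff, h1]
  constructor
  · rintro ⟨-, h⟩
    rw [← h2] at h3
    have n := hV.adj h4 _ h3
    rcases h5 with h5 | h5 | h5
    · exact h5.symm
    · exfalso; rw [h5] at h
      apply n.1
      have : d (k - 1) + 3 + 1 = d (k - 1) + 1 + 3 := by ring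
      rw [this]; exact h
    · exfalso; rw [h5] at h
      apply n.2
      have : d (k - 1) + 3 - 1 = d (k - 1) - 1 + 3 := by ring
      rw [this]; exact h
  · intro h
    refine ⟨h4, ?_⟩
    rw [← h, h2]; exact h3

lemma shift_out (W : Walk V p d) (hV : TriFree (V : Set Pt)) (ty : Bool) (k : ℤ) :
    shiftOut (V : Set Pt) p d ty k =
      if ty then shiftDir V (p (k + 1)) (d (k + 1)) else - shiftDir V (p (k + 1)) (d (k + 1)) := by
  have e1 : k + 1 + 1 = k + 2 := by ring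
  have e2 : k + 2 + 1 = k + 3 := by ring
  have h1 := W.step2 k
  have h2 := W.step (k + 2)
  rw [e2] at h2
  have h3 := W.mem (k + 3)
  have h4 := W.mem (k + 2)
  have h5 := W.turn (k + 1)
  rw [e1] at h5
  have hl := W.long_out hV (k + 1)
  rw [e1] at hl
  have e3 : k + 1 + 2 = k + 3 := by ring
  rw [e3] at hl
  unfold longDir at hl
  rw [decide_eq_true_iff, ← h2] at hl
  have c1 : (d (k + 2) = d (k + 1) + 1 ∧ p (k + 2) + e (d (k + 1) - 1) ∉ (V : Set Pt) ∧
      d (k + 3) ≠ d (k + 2)) ↔ (p (k + 1) + e (d (k + 1)) + e (d (k + 1) + 1) ∈ V ∧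
      p (k + 1) + e (d (k + 1)) + e (d (k + 1) - 1) ∉ V ∧
      p (k + 1) + e (d (k + 1)) + e (d (k + 1) + 1) + e (d (k + 1) + 1) ∉ V) := by
    rw [← h1]
    constructor
    · rintro ⟨g1, g2, g3⟩
      rw [← g1, ← h2]
      refine ⟨h3, g2, fun h => g3 (hl.1 ⟨h3, h⟩)⟩
    · rintro ⟨g1, g2, g3⟩
      have n := hV.adj h4 _ g1
      rw [h2] at h3
      rcases h5 with h5 | h5 | h5
      · exfalso
        apply n.2
        rw [h5] at h3
        rw [add_sub_cancel_right]; exact h3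
      · refine ⟨h5, g2, fun h => g3 ?_⟩
        have := (hl.2 h).2
        rw [← h5, ← h2]; exact this
      · exfalso; rw [h5] at h3; exact g2 h3
  have c2 : (d (k + 2) = d (k + 1) - 1 ∧ p (k + 2) + e (d (k + 1) + 1) ∉ (V : Set Pt) ∧
      d (k + 3) ≠ d (k + 2)) ↔ (p (k + 1) + e (d (k + 1)) + e (d (k + 1) - 1) ∈ V ∧
      p (k + 1) + e (d (k + 1)) + e (d (k + 1) + 1) ∉ V ∧
      p (k + 1) + e (d (k + 1)) + e (d (k + 1) - 1) + e (d (k + 1) - 1) ∉ V) := by
    rw [← h1]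
    constructor
    · rintro ⟨g1, g2, g3⟩
      rw [← g1, ← h2]
      refine ⟨h3, g2, fun h => g3 (hl.1 ⟨h3, h⟩)⟩
    · rintro ⟨g1, g2, g3⟩
      have n := hV.adj h4 _ g1
      rw [h2] at h3
      rcases h5 with h5 | h5 | h5
      · exfalso
        apply n.1
        rw [h5] at h3
        rw [sub_add_cancel]; exact h3
      · exfalso; rw [h5] at h3; exact g2 h3
      · refine ⟨h5, g2, fun h => g3 ?_⟩
        have := (hl.2 h).2
        rw [← h5, ← h2]; exact this
  unfold shiftOut shiftDir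
  simp only [c1, c2]
  cases ty <;> simp only [if_true, Bool.false_eq_true, if_false] <;> split_ifs <;>
    first | rfl | (exfalso; tauto)

lemma shift_in (W : Walk V p d) (hV : TriFree (V : Set Pt)) (ty : Bool) (k : ℤ) :
    shiftIn (V : Set Pt) p d ty k =
      if ty then - shiftDir V (p (k + 1)) (d k + 3) else shiftDir V (p (k + 1)) (d k + 3) := by
  have h1 := W.back k
  have h2 := W.back (k - 1)
  have h5 := W.turn (k - 1)
  rw [sub_add_cancel] at h2 h5
  have h3 := W.mem (k - 1)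
  have h4 := W.mem k
  have hl := W.long_in hV (k - 1)
  rw [sub_add_cancel, sub_sub] at hl
  norm_num at hl
  unfold longDir at hl
  rw [decide_eq_true_iff, h2] at hl
  have hr : ∀ x y : ZMod 6, y = x + 1 → y + 3 - 1 = x + 3 ∧ y + 3 + 1 = x - 1 := by decide
  have hr' : ∀ x y : ZMod 6, y = x - 1 → y + 3 + 1 = x + 3 ∧ y + 3 - 1 = x + 1 := by decide
  have c1 : (d k = d (k - 1) + 1 ∧ p k + e (d (k - 1) - 1) ∉ (V : Set Pt) ∧
      d (k - 2) ≠ d (k - 1)) ↔ (p (k + 1) + e (d k + 3) + e (d k + 3 - 1) ∈ V ∧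
      p (k + 1) + e (d k + 3) + e (d k + 3 + 1) ∉ V ∧
      p (k + 1) + e (d k + 3) + e (d k + 3 - 1) + e (d k + 3 - 1) ∉ V) := by
    rw [h1]
    constructor
    · rintro ⟨g1, g2, g3⟩
      rw [(hr _ _ g1).1, (hr _ _ g1).2, h2]
      exact ⟨h3, g2, fun h => g3 (hl.1 ⟨h3, h⟩)⟩
    · rintro ⟨g1, g2, g3⟩
      have n := hV.adj h4 _ g1
      rw [← h2] at h3
      rcases h5 with h5 | h5 | h5
      · exfalso
        apply n.1
        rw [sub_add_cancel, h5]; exact h3
      · rw [(hr _ _ h5).1, h2] at g3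
        rw [(hr _ _ h5).2] at g2
        exact ⟨h5, g2, fun h => g3 (hl.2 h).2⟩
      · exfalso
        rw [(hr' _ _ h5).1] at g2
        exact g2 h3
  have c2 : (d k = d (k - 1) - 1 ∧ p k + e (d (k - 1) + 1) ∉ (V : Set Pt) ∧
      d (k - 2) ≠ d (k - 1)) ↔ (p (k + 1) + e (d k + 3) + e (d k + 3 + 1) ∈ V ∧
      p (k + 1) + e (d k + 3) + e (d k + 3 - 1) ∉ V ∧
      p (k + 1) + e (d k + 3) + e (d k + 3 + 1) + e (d k + 3 + 1) ∉ V) := by
    rw [h1]
    constructor
    · rintro ⟨g1, g2, g3⟩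
      rw [(hr' _ _ g1).1, (hr' _ _ g1).2, h2]
      exact ⟨h3, g2, fun h => g3 (hl.1 ⟨h3, h⟩)⟩
    · rintro ⟨g1, g2, g3⟩
      have n := hV.adj h4 _ g1
      rw [← h2] at h3
      rcases h5 with h5 | h5 | h5
      · exfalso
        apply n.2
        rw [add_sub_cancel_right, h5]; exact h3
      · exfalso
        rw [(hr _ _ h5).1] at g2
        exact g2 h3
      · rw [(hr' _ _ h5).1, h2] at g3
        rw [(hr' _ _ h5).2] at g2
        exact ⟨h5, g2, fun h => g3 (hl.2 h).2⟩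
  have cc : ¬ ((p (k + 1) + e (d k + 3) + e (d k + 3 + 1) ∈ V ∧
      p (k + 1) + e (d k + 3) + e (d k + 3 - 1) ∉ V ∧
      p (k + 1) + e (d k + 3) + e (d k + 3 + 1) + e (d k + 3 + 1) ∉ V) ∧
      (p (k + 1) + e (d k + 3) + e (d k + 3 - 1) ∈ V ∧
      p (k + 1) + e (d k + 3) + e (d k + 3 + 1) ∉ V ∧
      p (k + 1) + e (d k + 3) + e (d k + 3 - 1) + e (d k + 3 - 1) ∉ V)) := by
    rintro ⟨⟨a, -, -⟩, ⟨-, b, -⟩⟩
    exact b a
  unfold shiftIn shiftDir
  simp only [c1, c2]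
  cases ty <;> simp only [if_true, Bool.false_eq_true, if_false] <;> split_ifs <;>
    first | rfl | (exfalso; tauto)

end Walk

end Pool.Agent.H171R2.Tri
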